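import Pool.Agent.Q211.Heller.Core

open MeasureTheory ProbabilityTheory Filter
open scoped ENNReal Topology

namespace Pool.Agent.Q211.Heller

variable {S : Type*} [MeasurableSpace S] {P : Kernel S S} {Z : Set S} {m : ℕ → Measure S}

lemma ek_norm (z : ℂ) (k : ℕ) : ‖(‖z‖ : ℂ) * (z / ‖z‖) ^ k‖ = ‖z‖ := by
  by_cases hz : z = 0
  · simp [hz]
  have hz0 : ‖z‖ ≠ 0 := norm_ne_zero_iff.2 hz
  rw [norm_mul, norm_pow, norm_div, Complex.norm_real, norm_norm, div_self hz0, one_pow, mul_one]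

/-- The powers of the phase. -/
noncomputable def ek (e : BMC S) (k : ℕ) : BMC S :=
  ⟨fun x => (‖e.1 x‖ : ℂ) * (e.1 x / ‖e.1 x‖) ^ k, by
    obtain ⟨h, C, hC⟩ := e.2
    refine ⟨?_, C, fun x => by rw [ek_norm]; exact hC x⟩
    have h1 : Measurable fun x => (‖e.1 x‖ : ℂ) := Complex.measurable_ofReal.comp h.norm
    exact h1.mul ((h.div h1).pow_const k)⟩

lemma pt_ineq [IsMarkovKernel P] (e : BMC S) {x : S} (hxZ : x ∈ Z)
    (hx : TF P Z e.1 x = gam * e.1 x) (k : ℕ) {t : ℝ} (ht : 0 < t) :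
    ‖TF P Z (ek e k).1 x - gam ^ k * (ek e k).1 x‖ ≤
      k * t * TR P Z (fun y => ‖e.1 y‖) x +
        (k / t + 1) * (TR P Z (fun y => ‖e.1 y‖) x - ‖e.1 x‖) := by
  set ρ := (P x).restrict Z with hρ
  obtain ⟨ζ, hζ, h1, h2⟩ : ∃ ζ : ℂ, ‖ζ‖ = 1 ∧ gam * e.1 x = ‖e.1 x‖ * ζ ∧
      gam ^ k * (ek e k).1 x = ‖e.1 x‖ * ζ ^ k := by
    by_cases he : e.1 x = 0
    · exact ⟨1, norm_one, by simp [he], by simp [ek, he]⟩
    · have hz0 : (‖e.1 x‖ : ℂ) ≠ 0 := by
        have := norm_ne_zero_iff.2 he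
        exact_mod_cast this
      refine ⟨gam * (e.1 x / ‖e.1 x‖), ?_, ?_, ?_⟩
      · rw [norm_mul, gam_norm, one_mul, norm_div, Complex.norm_real, norm_norm,
          div_self (norm_ne_zero_iff.2 he)]
      · field_simp
      · simp only [ek]
        rw [mul_pow]
        ring
  have hR : TR P Z (fun y => ‖e.1 y‖) x = 2 * ∫ y, ‖e.1 y‖ ∂ρ := by
    simp only [TR, Set.indicator_of_mem hxZ, hρ]
  have hTk : TF P Z (ek e k).1 x = 2 * ∫ y, (ek e k).1 y ∂ρ := by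
    simp only [TF, Set.indicator_of_mem hxZ, hρ]
  have hTe : TF P Z e.1 x = 2 * ∫ y, e.1 y ∂ρ := by
    simp only [TF, Set.indicator_of_mem hxZ, hρ]
  set R := TR P Z (fun y => ‖e.1 y‖) x with hRdef
  have hRe : ‖e.1 x‖ ≤ R := by
    have := norm_TF_le (P := P) (Z := Z) e.1 x
    rw [hx, norm_mul, gam_norm, one_mul] at this
    exact this
  have i1 : Integrable (fun y => (ek e k).1 y) ρ := BMC.integrable (ek e k).2 ρ
  have i2 : Integrable (fun y => (‖e.1 y‖ : ℂ) * ζ ^ k) ρ :=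
    ((BMC.norm_int e.2 ρ).ofReal).mul_const _
  have i3 : Integrable (fun y => ‖e.1 y‖) ρ := BMC.norm_int e.2 ρ
  have i4 : Integrable (fun y => starRingEnd ℂ ζ * e.1 y) ρ := (BMC.integrable e.2 ρ).const_mul _
  have i5 : Integrable (fun y => (starRingEnd ℂ ζ * e.1 y).re) ρ := i4.re
  have i6 : Integrable (fun y => (‖e.1 y‖ - (starRingEnd ℂ ζ * e.1 y).re) / t) ρ :=
    (i3.sub i5).div_const t
  have i7 : Integrable (fun y => t * ‖e.1 y‖) ρ := i3.const_mul t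
  have key : TF P Z (ek e k).1 x - gam ^ k * (ek e k).1 x =
      2 * ∫ y, ((ek e k).1 y - ‖e.1 y‖ * ζ ^ k) ∂ρ + ((R - ‖e.1 x‖ : ℝ) : ℂ) * ζ ^ k := by
    rw [integral_sub i1 i2, integral_mul_const, hTk, h2, hR]
    have : ∫ y, (‖e.1 y‖ : ℂ) ∂ρ = ((∫ y, ‖e.1 y‖ ∂ρ : ℝ) : ℂ) := integral_complex_ofReal
    rw [this]
    push_cast
    ring
  rw [key]
  refine (norm_add_le _ _).trans ?_
  have n2 : ‖((R - ‖e.1 x‖ : ℝ) : ℂ) * ζ ^ k‖ = R - ‖e.1 x‖ := by
    rw [norm_mul, norm_pow, hζ, one_pow, mul_one, Complex.norm_real, Real.norm_eq_abs,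
      abs_of_nonneg (by linarith)]
  have n1 : ‖(2 : ℂ) * ∫ y, ((ek e k).1 y - ‖e.1 y‖ * ζ ^ k) ∂ρ‖ ≤
      k * (t * R + (R - ‖e.1 x‖) / t) := by
    rw [norm_mul, Complex.norm_ofNat]
    have h3 : ‖∫ y, ((ek e k).1 y - ‖e.1 y‖ * ζ ^ k) ∂ρ‖ ≤
        ∫ y, k * (t * ‖e.1 y‖ + (‖e.1 y‖ - (starRingEnd ℂ ζ * e.1 y).re) / t) ∂ρ := by
      refine norm_integral_le_of_norm_le ?_ (ae_of_all _ fun y => scalar_ineq (e.1 y) hζ ht k)
      exact (i7.add i6).const_mul _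
    have h4 : ∫ y, k * (t * ‖e.1 y‖ + (‖e.1 y‖ - (starRingEnd ℂ ζ * e.1 y).re) / t) ∂ρ =
        k * (t * ∫ y, ‖e.1 y‖ ∂ρ + (∫ y, ‖e.1 y‖ ∂ρ -
          (starRingEnd ℂ ζ * ∫ y, e.1 y ∂ρ).re) / t) := by
      rw [integral_const_mul, integral_add i7 i6,
        integral_const_mul, integral_div, integral_sub i3 i5]
      congr 4
      have h5 : ∫ y, (starRingEnd ℂ ζ * e.1 y).re ∂ρ =
          (∫ y, starRingEnd ℂ ζ * e.1 y ∂ρ).re := integral_re i4
      rw [integral_const_mul] at h5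
      exact h5
    have h6 : (starRingEnd ℂ ζ * ∫ y, e.1 y ∂ρ).re = ‖e.1 x‖ / 2 := by
      have h7 : ∫ y, e.1 y ∂ρ = (‖e.1 x‖ : ℂ) * ζ / 2 := by
        rw [← h1, ← hx, hTe]
        ring
      rw [h7]
      have h8 : starRingEnd ℂ ζ * ((‖e.1 x‖ : ℂ) * ζ / 2) = ((‖e.1 x‖ / 2 : ℝ) : ℂ) := by
        have h9 : starRingEnd ℂ ζ * ζ = 1 := by
          rw [mul_comm, Complex.mul_conj, Complex.normSq_eq_norm_sq, hζ]
          simp
        push_cast
        linear_combination ((‖e.1 x‖ : ℂ) / 2) * h9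
      rw [h8, Complex.ofReal_re]
    rw [h4, h6] at h3
    have h10 : ∫ y, ‖e.1 y‖ ∂ρ = R / 2 := by linarith
    rw [h10] at h3
    have h11 : k * (t * (R / 2) + (R / 2 - ‖e.1 x‖ / 2) / t) =
        (k * (t * R + (R - ‖e.1 x‖) / t)) / 2 := by ring
    rw [h11] at h3
    linarith
  rw [n2]
  have h12 : k * (t * R + (R - ‖e.1 x‖) / t) + (R - ‖e.1 x‖) =
      k * t * R + (k / t + 1) * (R - ‖e.1 x‖) := by ring
  linarith

/-- Functions vanishing in Cesàro mean. -/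
def NL (h : Flow P Z m) : Submodule ℂ (BMC S) where
  carrier := {f | Tendsto (fun N : ℕ => (∑ n ∈ Finset.range N, ∫ x, ‖f.1 x‖ ∂(m n)) / N)
    atTop (𝓝 0)}
  zero_mem' := by simp
  add_mem' := by
    intro f g hf hg
    simp only [Set.mem_ofPred_eq] at hf hg ⊢
    have hfg := hf.add hg
    rw [add_zero] at hfg
    refine squeeze_zero (fun N => ?_) (fun N => ?_) hfg
    · exact div_nonneg (Finset.sum_nonneg fun n _ => integral_nonneg fun x => norm_nonneg _)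
        (Nat.cast_nonneg N)
    · rw [← add_div, ← Finset.sum_add_distrib]
      refine div_le_div_of_nonneg_right (Finset.sum_le_sum fun n _ => ?_) (Nat.cast_nonneg N)
      have := h.fin n
      rw [← integral_add (BMC.norm_int f.2 (m n)) (BMC.norm_int g.2 (m n))]
      exact integral_mono (BMC.norm_int (f + g).2 (m n))
        ((BMC.norm_int f.2 (m n)).add (BMC.norm_int g.2 (m n))) fun x => norm_add_le _ _
  smul_mem' := by
    intro c f hf
    simp only [Set.mem_ofPred_eq] at hf ⊢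
    have := hf.const_mul ‖c‖
    rw [mul_zero] at this
    refine this.congr fun N => ?_
    rw [← mul_div_assoc, Finset.mul_sum]
    congr 1
    refine Finset.sum_congr rfl fun n _ => ?_
    rw [← integral_const_mul]
    refine integral_congr_ae (ae_of_all _ fun x => ?_)
    exact (norm_smul c (f.1 x)).symm

lemma mem_NL (h : Flow P Z m) (f : BMC S) : f ∈ NL h ↔
    Tendsto (fun N : ℕ => (∑ n ∈ Finset.range N, ∫ x, ‖f.1 x‖ ∂(m n)) / N) atTop (𝓝 0) :=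
  Iff.rfl

lemma NL_int_le (h : Flow P Z m) {f : S → ℂ} {C : ℝ} (hC0 : 0 ≤ C) (hC : ∀ x, ‖f x‖ ≤ C)
    (n : ℕ) : ∫ x, ‖f x‖ ∂(m n) ≤ C := by
  have := h.fin n
  have h1 := norm_integral_le_of_norm_le_const (μ := m n) (f := fun x => ‖f x‖) (C := C)
    (ae_of_all _ fun x => by simpa using hC x)
  have h2 : (m n).real Set.univ ≤ 1 := by
    rw [measureReal_def]
    exact ENNReal.toReal_le_of_le_ofReal zero_le_one (by simpa using h.le_one n)
  refine (le_abs_self _).trans ?_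
  rw [Real.norm_eq_abs] at h1
  refine h1.trans ?_
  calc C * (m n).real Set.univ ≤ C * 1 := by gcongr
    _ = C := mul_one C

lemma NL_T [IsMarkovKernel P] (h : Flow P Z m) (hFR : FR P) (hZ : MeasurableSet Z) :
    NL h ≤ (NL h).comap (TT P hFR hZ) := by
  intro f hf
  rw [Submodule.mem_comap, mem_NL]
  rw [mem_NL] at hf
  obtain ⟨hm, C, hC⟩ := f.2
  have hC' : ∀ x, ‖f.1 x‖ ≤ max C 0 := fun x => (hC x).trans (le_max_left _ _)
  have hCN : Tendsto (fun N : ℕ => (max C 0) / (N : ℝ)) atTop (𝓝 0) :=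
    tendsto_const_div_atTop_nhds_zero_nat _
  have hsum := hf.add hCN
  rw [add_zero] at hsum
  refine squeeze_zero (fun N => ?_) (fun N => ?_) hsum
  · exact div_nonneg (Finset.sum_nonneg fun n _ => integral_nonneg fun x => norm_nonneg _)
      (Nat.cast_nonneg N)
  · rw [← add_div]
    refine div_le_div_of_nonneg_right ?_ (Nat.cast_nonneg N)
    have h1 : ∀ n, ∫ x, ‖(TT P hFR hZ f).1 x‖ ∂(m n) ≤ ∫ x, ‖f.1 x‖ ∂(m (n + 1)) := by
      intro n
      have := h.fin n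
      obtain ⟨e1, e2⟩ := norm_step hFR hZ (m n) (h.compl hZ n) f.2
      rw [← h.step] at e2
      rw [TT_apply]
      linarith
    refine (Finset.sum_le_sum fun n _ => h1 n).trans ?_
    have h2 : ∑ n ∈ Finset.range N, ∫ x, ‖f.1 x‖ ∂(m (n + 1)) + ∫ x, ‖f.1 x‖ ∂(m 0) =
        ∑ n ∈ Finset.range N, ∫ x, ‖f.1 x‖ ∂(m n) + ∫ x, ‖f.1 x‖ ∂(m N) := by
      rw [← Finset.sum_range_succ, Finset.sum_range_succ']
    have h3 : 0 ≤ ∫ x, ‖f.1 x‖ ∂(m 0) := integral_nonneg fun x => norm_nonneg _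
    have h4 := NL_int_le h (le_max_right C 0) hC' N
    linarith

end Pool.Agent.Q211.Heller
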