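import Pool.Agent.Q211.Heller.Eig

open MeasureTheory ProbabilityTheory Filter
open scoped ENNReal Topology

namespace Pool.Agent.Q211.Heller

variable {S : Type*} [MeasurableSpace S] {P : Kernel S S} {Z : Set S} {m : ℕ → Measure S}

/-- Integration as a linear map. -/
noncomputable def intL (μ : Measure S) [IsFiniteMeasure μ] : BMC S →ₗ[ℂ] ℂ where
  toFun f := ∫ x, f.1 x ∂μ
  map_add' f g := integral_add (BMC.integrable f.2 μ) (BMC.integrable g.2 μ)
  map_smul' c _ := integral_const_mul c _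

lemma intL_le (μ ν : Measure S) [IsFiniteMeasure μ] [IsFiniteMeasure ν] (h : μ ≤ ν)
    (f : BMC S) : ‖intL μ f‖ ≤ ‖Lam ν f‖ := by
  rw [Lam_norm]
  refine (norm_integral_le_integral_norm _).trans ?_
  exact integral_mono_measure h (ae_of_all _ fun x => norm_nonneg _) (BMC.norm_int f.2 ν)

theorem exists_e [IsMarkovKernel P] (h : Flow P Z m) (hFR : FR P) (hZ : MeasurableSet Z) :
    ∃ e : BMC S, (∀ n, ∀ᵐ x ∂(m n), TF P Z e.1 x = gam * e.1 x) ∧
      1 / 16 ≤ ∫ x, ‖e.1 x‖ ∂(m 0) := by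
  have hfin := h.sg_fin 0
  have hfin0 := h.fin 0
  have hfd := range_fd hFR hZ
  set T := TT P hFR hZ with hT
  set Λ := Lam (sg m 0) with hΛ
  set a : ℕ → BMC S := fun n => (gam⁻¹) ^ n • (T ^ (n + 1)) (one1 S) with ha
  set s : ℕ → BMC S := fun N => (N : ℂ)⁻¹ • ∑ n ∈ Finset.range N, a n with hs
  have hgi : ∀ n : ℕ, ‖(gam⁻¹) ^ n‖ = 1 := fun n => by
    rw [norm_pow, norm_inv, gam_norm, inv_one, one_pow]
  have ha2 : ∀ n, ‖Λ (a n)‖ ≤ 2 := by
    intro n
    rw [ha]
    simp only [map_smul, norm_smul, hgi, one_mul]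
    rw [hΛ, Lam_norm]
    exact h.q_one hFR hZ (n + 1)
  have hs2 : ∀ N, ‖Λ (s N)‖ ≤ 2 := by
    intro N
    rw [hs]
    simp only [map_smul, map_sum, norm_smul, norm_inv, Complex.norm_natCast]
    rcases Nat.eq_zero_or_pos N with hN | hN
    · subst hN; simp
    · have hN0 : (0 : ℝ) < N := by exact_mod_cast hN
      rw [inv_mul_le_iff₀ hN0]
      refine (norm_sum_le _ _).trans ?_
      refine (Finset.sum_le_sum fun n _ => ha2 n).trans ?_
      simp
  have har : ∀ n, a n ∈ LinearMap.range T := by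
    intro n
    rw [ha]
    refine Submodule.smul_mem _ _ ⟨(T ^ n) (one1 S), ?_⟩
    rw [pow_succ', Module.End.mul_apply]
  have hsr : ∀ N, s N ∈ LinearMap.range T := fun N =>
    Submodule.smul_mem _ _ (Submodule.sum_mem _ fun n _ => har n)
  have hTs : ∀ N, T (s N) - gam • s N = (N : ℂ)⁻¹ • gam • (a N - a 0) := by
    intro N
    have hTa : ∀ n, T (a n) = gam • a (n + 1) := by
      intro n
      simp only [ha, map_smul]
      rw [smul_smul, pow_succ (gam⁻¹), mul_comm ((gam⁻¹) ^ n), ← mul_assoc,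
        mul_inv_cancel₀ gam_ne, one_mul, pow_succ' T (n + 1), Module.End.mul_apply]
    simp only [hs, map_smul, map_sum, hTa]
    have e1 : ∑ x ∈ Finset.range N, gam • a (x + 1) = gam • ∑ x ∈ Finset.range N, a (x + 1) :=
      Finset.smul_sum.symm
    have e2 : a N - a 0 = ∑ x ∈ Finset.range N, a (x + 1) - ∑ x ∈ Finset.range N, a x := by
      rw [← Finset.sum_sub_distrib, Finset.sum_range_sub]
    rw [e1, e2]
    module
  obtain ⟨e, her, φ, hφ, hlim⟩ := subseq_aux Λ (LinearMap.range T) s hsr hs2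
  have hlim0 : Tendsto (fun j => ‖Λ e - Λ (s (φ j))‖) atTop (𝓝 0) := by
    have := (tendsto_const_nhds (x := Λ e)).sub hlim
    rw [sub_self] at this
    simpa using this.norm
  have hφt : Tendsto (fun j => ((φ j : ℕ) : ℝ)⁻¹) atTop (𝓝 0) :=
    tendsto_inv_atTop_zero.comp (tendsto_natCast_atTop_atTop.comp hφ.tendsto_atTop)
  have hT2 : ∀ f : BMC S, ‖Λ (T f)‖ ≤ 2 * ‖Λ f‖ := by
    intro f
    rw [hΛ, Lam_norm, Lam_norm]
    exact h.q_two hFR hZ f.2
  have hzero : Λ (T e - gam • e) = 0 := by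
    rw [← norm_eq_zero]
    have hb : ∀ j, ‖Λ (T e - gam • e)‖ ≤
        3 * ‖Λ e - Λ (s (φ j))‖ + 4 * ((φ j : ℕ) : ℝ)⁻¹ := by
      intro j
      obtain ⟨d, hd⟩ : ∃ d, d = e - s (φ j) := ⟨_, rfl⟩
      have e1 : T e - gam • e = (T d - gam • d) + (T (s (φ j)) - gam • s (φ j)) := by
        rw [hd, map_sub, smul_sub]
        abel
      have e3 : Λ (T d - gam • d) = Λ (T d) - gam • Λ d := by rw [map_sub, map_smul]
      have e4 : Λ d = Λ e - Λ (s (φ j)) := by rw [hd, map_sub]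
      rw [e1, map_add, e3, ← e4]
      refine (norm_add_le _ _).trans ?_
      have h1 := norm_sub_le (Λ (T d)) (gam • Λ d)
      rw [norm_smul, gam_norm, one_mul] at h1
      have h2 := hT2 d
      have h3 : ‖Λ (T (s (φ j)) - gam • s (φ j))‖ ≤ 4 * ((φ j : ℕ) : ℝ)⁻¹ := by
        rw [hTs, map_smul, map_smul, norm_smul, norm_smul, gam_norm, one_mul, norm_inv,
          Complex.norm_natCast, mul_comm, map_sub]
        have h4 := norm_sub_le (Λ (a (φ j))) (Λ (a 0))
        have h5 := ha2 (φ j)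
        have h6 := ha2 0
        gcongr
        linarith
      linarith
    have hl : Tendsto (fun j => 3 * ‖Λ e - Λ (s (φ j))‖ + 4 * ((φ j : ℕ) : ℝ)⁻¹) atTop (𝓝 0) := by
      simpa using (hlim0.const_mul 3).add (hφt.const_mul 4)
    exact le_antisymm (ge_of_tendsto' hl hb) (norm_nonneg _)
  have hint : intL (m 0) e = gam ^ 2 / 16 := by
    have h1 : Tendsto (fun j => intL (m 0) (s (φ j))) atTop (𝓝 (intL (m 0) e)) := by
      rw [tendsto_iff_norm_sub_tendsto_zero]
      refine squeeze_zero (fun j => norm_nonneg _) (fun j => ?_) hlim0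
      rw [← map_sub, norm_sub_rev, ← map_sub]
      have := intL_le (m 0) (sg m 0) Flow.m_zero_le (s (φ j) - e)
      exact this
    have h2 : Tendsto (fun j => intL (m 0) (s (φ j))) atTop (𝓝 (gam ^ 2 / 16)) := by
      refine (cesaro_mass.comp hφ.tendsto_atTop).congr fun j => ?_
      simp only [Function.comp, hs, ha, map_smul, map_sum, smul_eq_mul]
      congr 1
      refine Finset.sum_congr rfl fun n _ => ?_
      congr 1
      exact (h.int_one hFR hZ (n + 1) 0).symm
    exact tendsto_nhds_unique h1 h2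
  refine ⟨e, fun n => ?_, ?_⟩
  · have h1 : ∫ x, ‖(T e - gam • e).1 x‖ ∂(sg m 0) = 0 := by
      rw [← Lam_norm, ← hΛ, hzero, norm_zero]
    rw [integral_eq_zero_iff_of_nonneg (fun x => norm_nonneg _)
      (BMC.norm_int (T e - gam • e).2 _)] at h1
    have h2 : ∀ᵐ x ∂(((2 : ℝ≥0∞)⁻¹) ^ n • m n), ‖(T e - gam • e).1 x‖ = 0 :=
      (ae_mono (Flow.m_le n)) h1
    rw [Measure.ae_ennreal_smul_measure_iff (by simp)] at h2
    filter_upwards [h2] with x hx
    exact sub_eq_zero.1 (norm_eq_zero.1 hx)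
  · have h1 : ‖intL (m 0) e‖ = 1 / 16 := by
      rw [hint, norm_div, norm_pow, gam_norm]
      norm_num
    rw [← h1]
    exact norm_integral_le_integral_norm _

end Pool.Agent.Q211.Heller
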