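import Mathlib

open MeasureTheory ProbabilityTheory
open scoped ENNReal DirectSum

namespace Pool.Agent.Q211.Heller

/-- `A_n`: the bounded measurable real functions on `Sⁿ`. -/
def BM (S : Type*) [MeasurableSpace S] (n : ℕ) : Submodule ℝ ((Fin n → S) → ℝ) where
  carrier := {f | Measurable f ∧ ∃ C : ℝ, ∀ x, |f x| ≤ C}
  add_mem' := by
    rintro f g ⟨hf, C, hC⟩ ⟨hg, D, hD⟩
    exact ⟨hf.add hg, C + D, fun x => (abs_add_le _ _).trans (add_le_add (hC x) (hD x))⟩
  zero_mem' := ⟨measurable_const, 0, fun x => by simp⟩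
  smul_mem' := by
    rintro c f ⟨hf, C, hC⟩
    refine ⟨hf.const_smul c, |c| * C, fun x => ?_⟩
    simp only [Pi.smul_apply, smul_eq_mul, abs_mul]
    exact mul_le_mul_of_nonneg_left (hC x) (abs_nonneg c)

/-- `A`: the direct sum of the `A_n`. -/
abbrev AA (S : Type*) [MeasurableSpace S] := DirectSum ℕ (fun n => BM S n)

noncomputable instance (S : Type*) [MeasurableSpace S] : AddCommGroup (AA S) :=
  inferInstanceAs (AddCommGroup (Π₀ n : ℕ, BM S n))

variable {S : Type*} [MeasurableSpace S]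

lemma BM.int_pair {m n : ℕ} (f : BM S m) (g : BM S n) (ν : Measure (ℕ → S))
    [IsProbabilityMeasure ν] :
    Integrable (fun y : ℕ → S => f.1 (fun i => y i) * g.1 (fun i => y (m + i))) ν := by
  obtain ⟨hf, C, hC⟩ := f.2
  obtain ⟨hg, D, hD⟩ := g.2
  refine Integrable.of_bound (C := C * D) ?_ (ae_of_all _ fun y => ?_)
  · exact ((hf.comp (measurable_pi_lambda _ fun i => measurable_pi_apply _)).mul
      (hg.comp (measurable_pi_lambda _ fun i => measurable_pi_apply _))).aestronglyMeasurable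
  · rw [norm_mul]
    exact mul_le_mul (hC _) (hD _) (norm_nonneg _) ((abs_nonneg _).trans (hC fun i => y i))

/-- For `ξ ∈ A_m` and a random sequence with law `ν`: the linear functional
`η ↦ E(ξ η) = E[ξ(Y_1, …, Y_m) η(Y_{m+1}, …, Y_{m+n})]` on `A_n`. -/
noncomputable def pairn (ν : Measure (ℕ → S)) [IsProbabilityMeasure ν] {m : ℕ} (ξ : BM S m)
    (n : ℕ) : BM S n →ₗ[ℝ] ℝ where
  toFun η := ∫ y, ξ.1 (fun i => y i) * η.1 (fun i => y (m + i)) ∂ν
  map_add' g g' := by
    rw [← integral_add (BM.int_pair ξ g ν) (BM.int_pair ξ g' ν)]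
    exact integral_congr_ae (ae_of_all _ fun _ => mul_add _ _ _)
  map_smul' c g := by
    rw [RingHom.id_apply, smul_eq_mul, ← integral_const_mul]
    exact integral_congr_ae (ae_of_all _ fun _ => mul_left_comm _ _ _)

/-- `J = {η ∈ A : E(ξ η) = 0 for all ξ}`; by linearity it is enough to test `ξ ∈ A_m`. -/
noncomputable def JJ (ν : Measure (ℕ → S)) [IsProbabilityMeasure ν] : Submodule ℝ (AA S) :=
  ⨅ (m : ℕ) (ξ : BM S m), LinearMap.ker (DirectSum.toModule ℝ ℕ ℝ (pairn ν ξ))

/-- The space `L = A / J` is finite-dimensional. -/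
def LFinite (ν : Measure (ℕ → S)) [IsProbabilityMeasure ν] : Prop :=
  FiniteDimensional ℝ (AA S ⧸ JJ ν)

/-- `X` is a time-homogeneous Markov process with transition function `P`. -/
structure IsMarkovProc {Ω S' : Type*} [MeasurableSpace Ω] [MeasurableSpace S']
    (μ : Measure Ω) (X : ℕ → Ω → S') (P : Kernel S' S') : Prop where
  meas : ∀ n, Measurable (X n)
  markov : ∀ (n : ℕ) (B : ℕ → Set S'), (∀ i, MeasurableSet (B i)) →
    μ {ω | ∀ i ≤ n + 1, X i ω ∈ B i} =
      ∫⁻ ω in {ω | ∀ i ≤ n, X i ω ∈ B i}, P (X n ω) (B (n + 1)) ∂μ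

/-- The transition function has finite rank. -/
def IsFiniteRank {S' : Type*} [MeasurableSpace S'] (P : Kernel S' S') : Prop :=
  ∃ (r : ℕ) (a : Fin r → S' → ℝ) (b : Fin r → SignedMeasure S'),
    (∀ j, Measurable (a j)) ∧
      ∀ x B, MeasurableSet B → (P x B).toReal = ∑ j, a j x * b j B

end Pool.Agent.Q211.Heller
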