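import Pool.Agent.Q211.Heller.Flow

open MeasureTheory ProbabilityTheory Filter
open scoped ENNReal Topology

namespace Pool.Agent.Q211.Heller

/-- The rotation. -/
noncomputable def gam : ℂ := Complex.exp Complex.I

lemma gam_norm : ‖gam‖ = 1 := by
  rw [gam, Complex.norm_exp]
  simp

lemma gam_ne : gam ≠ 0 := Complex.exp_ne_zero _

lemma gam_pow (k : ℕ) : gam ^ k = Complex.exp (k * Complex.I) := by
  rw [gam, ← Complex.exp_nat_mul]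

lemma gam_inj : Function.Injective fun k : ℕ => gam ^ k := by
  intro k l hkl
  simp only [gam_pow] at hkl
  obtain ⟨n, hn⟩ := Complex.exp_eq_exp_iff_exists_int.1 hkl
  have him := congrArg Complex.im hn
  simp at him
  by_contra hne
  have hn0 : n ≠ 0 := by
    rintro rfl
    apply hne
    simp at him
    exact_mod_cast him
  have hn0' : (n : ℝ) ≠ 0 := by exact_mod_cast hn0
  have hpi : Real.pi = (((k : ℚ) - l) / (2 * n) : ℚ) := by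
    push_cast
    rw [eq_div_iff (by positivity)]
    linarith
  exact irrational_pi ⟨_, hpi.symm⟩

lemma cesaro_geom {ρ : ℂ} (h1 : ‖ρ‖ = 1) (h2 : ρ ≠ 1) :
    Tendsto (fun N : ℕ => (N : ℂ)⁻¹ * ∑ n ∈ Finset.range N, ρ ^ n) atTop (𝓝 0) := by
  rw [tendsto_zero_iff_norm_tendsto_zero]
  have h3 : Tendsto (fun N : ℕ => (2 / ‖ρ - 1‖) * ((1 : ℝ) / N)) atTop (𝓝 0) := by
    simpa using tendsto_one_div_atTop_nhds_zero_nat.const_mul (2 / ‖ρ - 1‖)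
  refine squeeze_zero (fun N => norm_nonneg _) (fun N => ?_) h3
  rw [geom_sum_eq h2, norm_mul, norm_div, norm_inv, Complex.norm_natCast, one_div, mul_comm]
  have h4 : ‖ρ ^ N - 1‖ ≤ 2 := by
    refine (norm_sub_le _ _).trans ?_
    rw [norm_pow, h1]
    norm_num
  gcongr

lemma cos_eq (n : ℕ) : ((Real.cos n : ℝ) : ℂ) = (gam ^ n + (gam⁻¹) ^ n) / 2 := by
  rw [Complex.ofReal_cos, Complex.cos, inv_pow, gam_pow, ← Complex.exp_neg]
  push_cast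
  ring_nf

lemma gam_inv_ne_one : gam⁻¹ ≠ 1 := by
  intro h
  have h1 : gam ^ 1 = gam ^ 0 := by
    rw [pow_one, pow_zero]
    simpa using congrArg (fun z => z⁻¹) h
  exact absurd (gam_inj h1) one_ne_zero

lemma gam_inv_sq_ne_one : (gam⁻¹) ^ 2 ≠ 1 := by
  intro h
  have h1 : gam ^ 2 = gam ^ 0 := by
    rw [pow_zero]
    simpa using congrArg (fun z => z⁻¹) h
  exact absurd (gam_inj h1) two_ne_zero

lemma cesaro_mass : Tendsto (fun N : ℕ => (N : ℂ)⁻¹ * ∑ n ∈ Finset.range N,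
    (gam⁻¹) ^ n * (((3 + Real.cos ((0 + (n + 1) : ℕ) + 1)) / 8 : ℝ) : ℂ)) atTop
      (𝓝 (gam ^ 2 / 16)) := by
  have hn : ‖gam⁻¹‖ = 1 := by rw [norm_inv, gam_norm, inv_one]
  have h1 := (cesaro_geom hn gam_inv_ne_one).const_mul (3 / 8)
  have h2 := (cesaro_geom (by rw [norm_pow, hn, one_pow]) gam_inv_sq_ne_one).const_mul
    ((gam⁻¹) ^ 2 / 16)
  have h3 := (h1.add h2).add (tendsto_const_nhds (x := gam ^ 2 / 16) (f := (atTop : Filter ℕ)))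
  simp only [mul_zero, zero_add, add_zero] at h3
  refine h3.congr' ?_
  filter_upwards [eventually_ge_atTop 1] with N hN
  have hN0 : (N : ℂ) ≠ 0 := by
    have : N ≠ 0 := by omega
    exact_mod_cast this
  have hterm : ∀ n : ℕ, (gam⁻¹) ^ n * (((3 + Real.cos ((0 + (n + 1) : ℕ) + 1)) / 8 : ℝ) : ℂ) =
      3 / 8 * (gam⁻¹) ^ n + (gam⁻¹) ^ 2 / 16 * ((gam⁻¹) ^ 2) ^ n + gam ^ 2 / 16 := by
    intro n
    have hc : (((3 + Real.cos ((0 + (n + 1) : ℕ) + 1)) / 8 : ℝ) : ℂ) =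
        (3 + (gam ^ (n + 2) + (gam⁻¹) ^ (n + 2)) / 2) / 8 := by
      rw [← cos_eq (n + 2)]
      push_cast
      ring_nf
    rw [hc]
    have h4 : (gam⁻¹) ^ n * gam ^ n = 1 := by
      rw [← mul_pow, inv_mul_cancel₀ gam_ne, one_pow]
    rw [pow_add gam, pow_add (gam⁻¹), ← pow_mul, mul_comm 2 n, pow_mul]
    linear_combination (gam ^ 2 / 16) * h4
  rw [Finset.sum_congr rfl fun n _ => hterm n, Finset.sum_add_distrib, Finset.sum_add_distrib,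
    ← Finset.mul_sum, ← Finset.mul_sum, Finset.sum_const, Finset.card_range, nsmul_eq_mul]
  field_simp

lemma pow_sub_le {s ζ : ℂ} (hs : ‖s‖ = 1) (hζ : ‖ζ‖ = 1) (k : ℕ) :
    ‖s ^ k - ζ ^ k‖ ≤ k * ‖s - ζ‖ := by
  induction k with
  | zero => simp
  | succ k ih =>
    have : s ^ (k + 1) - ζ ^ (k + 1) = s * (s ^ k - ζ ^ k) + (s - ζ) * ζ ^ k := by ring
    rw [this]
    refine (norm_add_le _ _).trans ?_
    rw [norm_mul, norm_mul, norm_pow, hs, hζ, one_pow, one_mul, mul_one]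
    push_cast
    linarith

lemma scalar_ineq (z : ℂ) {ζ : ℂ} (hζ : ‖ζ‖ = 1) {t : ℝ} (ht : 0 < t) (k : ℕ) :
    ‖(‖z‖ : ℂ) * (z / ‖z‖) ^ k - ‖z‖ * ζ ^ k‖ ≤
      k * (t * ‖z‖ + (‖z‖ - (starRingEnd ℂ ζ * z).re) / t) := by
  by_cases hz : z = 0
  · subst hz
    simp
  have hz0 : 0 < ‖z‖ := norm_pos_iff.2 hz
  have hzc : (‖z‖ : ℂ) ≠ 0 := by exact_mod_cast hz0.ne'
  have hs : ‖z / (‖z‖ : ℂ)‖ = 1 := by
    rw [norm_div, Complex.norm_real, norm_norm, div_self hz0.ne']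
  rw [← mul_sub, norm_mul, Complex.norm_real, norm_norm]
  have h1 := pow_sub_le hs hζ k
  have h2 : ‖z‖ * ‖z / (‖z‖ : ℂ) - ζ‖ = ‖z - ‖z‖ * ζ‖ := by
    rw [show z - (‖z‖ : ℂ) * ζ = (‖z‖ : ℂ) * (z / ‖z‖ - ζ) by field_simp, norm_mul,
      Complex.norm_real, norm_norm]
  have h3 : ‖z - ‖z‖ * ζ‖ ^ 2 = 2 * (‖z‖ * (‖z‖ - (starRingEnd ℂ ζ * z).re)) := by
    have e1 : ‖z‖ ^ 2 = z.re ^ 2 + z.im ^ 2 := by
      rw [← Complex.normSq_eq_norm_sq, Complex.normSq_apply]; ring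
    have e2 : (1 : ℝ) = ζ.re ^ 2 + ζ.im ^ 2 := by
      have : ‖ζ‖ ^ 2 = ζ.re ^ 2 + ζ.im ^ 2 := by
        rw [← Complex.normSq_eq_norm_sq, Complex.normSq_apply]; ring
      rw [hζ] at this
      linarith
    have e3 : ‖z - ‖z‖ * ζ‖ ^ 2 = (z.re - ‖z‖ * ζ.re) ^ 2 + (z.im - ‖z‖ * ζ.im) ^ 2 := by
      rw [← Complex.normSq_eq_norm_sq, Complex.normSq_apply]
      simp
      ring
    rw [e3]
    simp only [Complex.mul_re, Complex.conj_re, Complex.conj_im]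
    linear_combination (-1 : ℝ) * e1 - ‖z‖ ^ 2 * e2
  have hb : 0 ≤ ‖z‖ - (starRingEnd ℂ ζ * z).re := by
    have := Complex.re_le_norm (starRingEnd ℂ ζ * z)
    rw [norm_mul, Complex.norm_conj, hζ, one_mul] at this
    linarith
  have h4 : ‖z - ‖z‖ * ζ‖ ≤ t * ‖z‖ + (‖z‖ - (starRingEnd ℂ ζ * z).re) / t := by
    refine le_of_sq_le_sq ?_ (by positivity)
    rw [h3]
    have h5 : (t * ‖z‖) * ((‖z‖ - (starRingEnd ℂ ζ * z).re) / t) =
        ‖z‖ * (‖z‖ - (starRingEnd ℂ ζ * z).re) := by field_simp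
    nlinarith [sq_nonneg (t * ‖z‖ - (‖z‖ - (starRingEnd ℂ ζ * z).re) / t),
      mul_nonneg hz0.le hb]
  calc ‖z‖ * ‖(z / (‖z‖ : ℂ)) ^ k - ζ ^ k‖ ≤ ‖z‖ * (k * ‖z / (‖z‖ : ℂ) - ζ‖) := by gcongr
    _ = k * (‖z‖ * ‖z / (‖z‖ : ℂ) - ζ‖) := by ring
    _ = k * ‖z - ‖z‖ * ζ‖ := by rw [h2]
    _ ≤ _ := by gcongr

end Pool.Agent.Q211.Heller
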