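import Pool.Agent.Q211.Heller.Oper

open MeasureTheory ProbabilityTheory Filter
open scoped ENNReal Topology

namespace Pool.Agent.Q211.Heller

variable {S : Type*} [MeasurableSpace S] {P : Kernel S S} {Z : Set S}

lemma TR_nice [IsMarkovKernel P] (hFR : FR P) (hZ : MeasurableSet Z) {g : S → ℝ}
    (hg : Measurable g) {C : ℝ} (hC : ∀ x, ‖g x‖ ≤ C) :
    Measurable (TR P Z g) ∧ ∃ D : ℝ, ∀ x, ‖TR P Z g x‖ ≤ D := by
  have hmem : (fun x => (g x : ℂ)) ∈ BMC S :=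
    ⟨Complex.measurable_ofReal.comp hg, C, fun x => by simpa using hC x⟩
  obtain ⟨h1, D, hD⟩ := WW_le hZ (TF_mem hFR hZ hmem)
  have he : TF P Z (fun x => (g x : ℂ)) = fun x => (TR P Z g x : ℂ) := by
    funext x
    by_cases hx : x ∈ Z
    · simp only [TF, TR, Set.indicator_of_mem hx]
      rw [integral_complex_ofReal]
      push_cast
      rfl
    · simp [TF, TR, Set.indicator_of_notMem hx]
  rw [he] at h1 hD
  refine ⟨?_, D, fun x => by simpa using hD x⟩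
  have := Complex.measurable_re.comp h1
  exact this

lemma BMC.norm_meas {f : S → ℂ} (hf : f ∈ BMC S) : Measurable fun x => ‖f x‖ := hf.1.norm

lemma BMC.norm_int {f : S → ℂ} (hf : f ∈ BMC S) (μ : Measure S) [IsFiniteMeasure μ] :
    Integrable (fun x => ‖f x‖) μ := (BMC.integrable hf μ).norm

lemma norm_step [IsMarkovKernel P] (hFR : FR P) (hZ : MeasurableSet Z) (μ : Measure S)
    [IsFiniteMeasure μ] (hμ : μ Zᶜ = 0) {f : S → ℂ} (hf : f ∈ BMC S) :
    ∫ x, ‖TF P Z f x‖ ∂μ ≤ ∫ x, TR P Z (fun y => ‖f y‖) x ∂μ ∧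
    ∫ x, TR P Z (fun y => ‖f y‖) x ∂μ = ∫ x, ‖f x‖ ∂(KS P Z μ) := by
  obtain ⟨hm, C, hC⟩ := hf
  have hC' : ∀ x, ‖(fun y => ‖f y‖) x‖ ≤ C := fun x => by simpa using hC x
  obtain ⟨h1, D, hD⟩ := TR_nice hFR hZ hm.norm hC'
  refine ⟨integral_mono_of_nonneg (ae_of_all _ fun x => norm_nonneg _)
    (integrable_of_bdd h1 hD μ) (ae_of_all _ fun x => norm_TF_le f x), ?_⟩
  exact int_TR hZ μ hμ hm.norm hC'

/-- The masses of the surviving mass. -/
structure Flow (P : Kernel S S) (Z : Set S) (m : ℕ → Measure S) : Prop where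
  fin : ∀ n, IsFiniteMeasure (m n)
  zero : m 0 Zᶜ = 0
  step : ∀ n, m (n + 1) = KS P Z (m n)
  mass : ∀ n, (m n).real Set.univ = (3 + Real.cos (n + 1)) / 8

variable {m : ℕ → Measure S}

lemma Flow.compl (h : Flow P Z m) (hZ : MeasurableSet Z) (n : ℕ) : m n Zᶜ = 0 := by
  cases n with
  | zero => exact h.zero
  | succ n => rw [h.step]; exact KS_compl _ hZ

lemma Flow.le_one (h : Flow P Z m) (n : ℕ) : m n Set.univ ≤ 1 := by
  have := h.fin n
  have h1 := h.mass n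
  have h2 := Real.cos_le_one ((n : ℝ) + 1)
  rw [measureReal_def] at h1
  rw [← ENNReal.ofReal_toReal (measure_ne_top (m n) Set.univ), h1]
  exact ENNReal.ofReal_le_one.2 (by linarith)

/-- Weighted sums of the measures. -/
noncomputable def sg (m : ℕ → Measure S) (j : ℕ) : Measure S :=
  Measure.sum fun i => ((2 : ℝ≥0∞)⁻¹) ^ i • m (i + j)

lemma sg_apply (m : ℕ → Measure S) (j : ℕ) {B : Set S} (hB : MeasurableSet B) :
    sg m j B = ∑' i, ((2 : ℝ≥0∞)⁻¹) ^ i * m (i + j) B := by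
  rw [sg, Measure.sum_apply _ hB]
  simp [Measure.smul_apply]

lemma Flow.sg_univ (h : Flow P Z m) (j : ℕ) : sg m j Set.univ ≤ 2 := by
  rw [sg_apply m j MeasurableSet.univ]
  calc ∑' i, ((2 : ℝ≥0∞)⁻¹) ^ i * m (i + j) Set.univ ≤ ∑' i, ((2 : ℝ≥0∞)⁻¹) ^ i :=
        ENNReal.tsum_le_tsum fun i => by
          calc _ ≤ ((2 : ℝ≥0∞)⁻¹) ^ i * 1 := by gcongr; exact h.le_one _
            _ = _ := mul_one _
    _ = 2 := by
        rw [ENNReal.tsum_geometric, ENNReal.one_sub_inv_two, inv_inv]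

lemma Flow.sg_fin (h : Flow P Z m) (j : ℕ) : IsFiniteMeasure (sg m j) :=
  ⟨(h.sg_univ j).trans_lt (by simp)⟩

lemma Flow.sg_compl (h : Flow P Z m) (hZ : MeasurableSet Z) (j : ℕ) : sg m j Zᶜ = 0 := by
  rw [sg_apply m j hZ.compl]
  simp [h.compl hZ]

lemma Flow.KS_sg (h : Flow P Z m) (hZ : MeasurableSet Z) (j : ℕ) :
    KS P Z (sg m j) = sg m (j + 1) := by
  refine Measure.ext fun B hB => ?_
  rw [KS_apply _ hB hZ, sg_apply _ _ hB, sg, lintegral_sum_measure, ← ENNReal.tsum_mul_left]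
  refine tsum_congr fun i => ?_
  rw [lintegral_smul_measure, smul_eq_mul, ← add_assoc, h.step, KS_apply _ hB hZ]
  ring

lemma Flow.sg_succ_le (j : ℕ) : sg m (j + 1) ≤ (2 : ℝ≥0∞) • sg m j := by
  refine Measure.le_iff.2 fun B hB => ?_
  rw [Measure.smul_apply, smul_eq_mul, sg_apply _ _ hB, sg_apply _ _ hB]
  calc ∑' i, ((2 : ℝ≥0∞)⁻¹) ^ i * m (i + (j + 1)) B =
        2 * ∑' i, ((2 : ℝ≥0∞)⁻¹) ^ (i + 1) * m ((i + 1) + j) B := by
        rw [← ENNReal.tsum_mul_left]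
        refine tsum_congr fun i => ?_
        rw [show i + (j + 1) = i + 1 + j by ring, pow_succ, ← mul_assoc]
        congr 1
        rw [mul_comm ((2 : ℝ≥0∞)⁻¹ ^ i) 2⁻¹, ← mul_assoc,
          ENNReal.mul_inv_cancel (by simp) (by simp), one_mul]
    _ ≤ 2 * ∑' i, ((2 : ℝ≥0∞)⁻¹) ^ i * m (i + j) B := by
        exact mul_le_mul' le_rfl (ENNReal.tsum_comp_le_tsum_of_injective (add_left_injective 1)
          (fun i => ((2 : ℝ≥0∞)⁻¹) ^ i * m (i + j) B))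

lemma Flow.m_le (n : ℕ) : ((2 : ℝ≥0∞)⁻¹) ^ n • m n ≤ sg m 0 :=
  Measure.le_sum (fun i => ((2 : ℝ≥0∞)⁻¹) ^ i • m (i + 0)) n

lemma Flow.m_zero_le : m 0 ≤ sg m 0 := by
  have := Flow.m_le (m := m) 0
  simpa using this

section

variable [IsMarkovKernel P]

lemma Flow.q_step (h : Flow P Z m) (hFR : FR P) (hZ : MeasurableSet Z) (j : ℕ) {f : S → ℂ}
    (hf : f ∈ BMC S) : ∫ x, ‖TF P Z f x‖ ∂(sg m j) ≤ ∫ x, ‖f x‖ ∂(sg m (j + 1)) := by
  have := h.sg_fin j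
  obtain ⟨h1, h2⟩ := norm_step hFR hZ (sg m j) (h.sg_compl hZ j) hf
  rw [h.KS_sg hZ] at h2
  linarith

lemma Flow.q_two (h : Flow P Z m) (hFR : FR P) (hZ : MeasurableSet Z) {f : S → ℂ}
    (hf : f ∈ BMC S) : ∫ x, ‖TF P Z f x‖ ∂(sg m 0) ≤ 2 * ∫ x, ‖f x‖ ∂(sg m 0) := by
  have := h.sg_fin 0
  refine (h.q_step hFR hZ 0 hf).trans ?_
  have h1 : ∫ x, ‖f x‖ ∂(sg m (0 + 1)) ≤ ∫ x, ‖f x‖ ∂((2 : ℝ≥0∞) • sg m 0) := by
    refine integral_mono_measure (Flow.sg_succ_le 0) (ae_of_all _ fun x => norm_nonneg _) ?_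
    exact (BMC.norm_int hf _).smul_measure (by simp)
  rw [integral_smul_measure] at h1
  simpa using h1

lemma Flow.q_pow (h : Flow P Z m) (hFR : FR P) (hZ : MeasurableSet Z) (n j : ℕ) (f : BMC S) :
    ∫ x, ‖((TT P hFR hZ ^ n) f).1 x‖ ∂(sg m j) ≤ ∫ x, ‖f.1 x‖ ∂(sg m (j + n)) := by
  induction n generalizing j with
  | zero => simp
  | succ n ih =>
    rw [pow_succ', Module.End.mul_apply, TT_apply]
    refine (h.q_step hFR hZ j ((TT P hFR hZ ^ n) f).2).trans ?_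
    have := ih (j + 1)
    rwa [add_assoc, add_comm 1 n] at this

/-- The constant one. -/
def one1 (S : Type*) [MeasurableSpace S] : BMC S :=
  ⟨fun _ => 1, measurable_const, 1, fun _ => by simp⟩

lemma Flow.q_one (h : Flow P Z m) (hFR : FR P) (hZ : MeasurableSet Z) (n : ℕ) :
    ∫ x, ‖((TT P hFR hZ ^ n) (one1 S)).1 x‖ ∂(sg m 0) ≤ 2 := by
  refine (h.q_pow hFR hZ n 0 (one1 S)).trans ?_
  have := h.sg_fin (0 + n)
  simp only [one1, norm_one, integral_const, smul_eq_mul, mul_one]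
  rw [measureReal_def]
  exact ENNReal.toReal_le_of_le_ofReal (by norm_num) (by simpa using h.sg_univ (0 + n))

lemma Flow.int_one (h : Flow P Z m) (hFR : FR P) (hZ : MeasurableSet Z) (n k : ℕ) :
    ∫ x, ((TT P hFR hZ ^ n) (one1 S)).1 x ∂(m k) =
      (((3 + Real.cos ((k + n : ℕ) + 1)) / 8 : ℝ) : ℂ) := by
  induction n generalizing k with
  | zero =>
    have := h.fin k
    simp only [pow_zero, Module.End.one_apply, one1, integral_const, add_zero]
    rw [h.mass k]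
    simp
  | succ n ih =>
    have := h.fin k
    rw [pow_succ', Module.End.mul_apply, TT_apply,
      int_TF hZ (m k) (h.compl hZ k) ((TT P hFR hZ ^ n) (one1 S)).2, ← h.step, ih]
    congr 4
    push_cast
    ring

end

/-- The class in `L¹`. -/
noncomputable def Lam (μ : Measure S) [IsFiniteMeasure μ] : BMC S →ₗ[ℂ] Lp ℂ 1 μ where
  toFun f := (BMC.integrable f.2 μ).toL1 f.1
  map_add' f g := Integrable.toL1_add f.1 g.1 (BMC.integrable f.2 μ) (BMC.integrable g.2 μ)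
  map_smul' c f := Integrable.toL1_smul' f.1 (BMC.integrable f.2 μ) c

lemma Lam_norm (μ : Measure S) [IsFiniteMeasure μ] (f : BMC S) :
    ‖Lam μ f‖ = ∫ x, ‖f.1 x‖ ∂μ :=
  L1.norm_of_fun_eq_integral_norm (BMC.integrable f.2 μ)

/-- Bounded sequences in a finite-dimensional space of functions. -/
lemma subseq_aux {V E : Type*} [AddCommGroup V] [Module ℂ V] [NormedAddCommGroup E]
    [NormedSpace ℂ E] (Φ : V →ₗ[ℂ] E) (W : Submodule ℂ V) [FiniteDimensional ℂ W]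
    (s : ℕ → V) (hs : ∀ n, s n ∈ W) {C : ℝ} (hC : ∀ n, ‖Φ (s n)‖ ≤ C) :
    ∃ e ∈ W, ∃ φ : ℕ → ℕ, StrictMono φ ∧ Tendsto (fun n => Φ (s (φ n))) atTop (𝓝 (Φ e)) := by
  let R : Submodule ℂ E := W.map Φ
  have hR : FiniteDimensional ℂ R := inferInstance
  have hp : ProperSpace R := FiniteDimensional.proper ℂ R
  let t : ℕ → R := fun n => ⟨Φ (s n), Submodule.mem_map_of_mem (hs n)⟩
  have ht : ∀ n, t n ∈ Metric.closedBall (0 : R) C := fun n => by
    rw [mem_closedBall_zero_iff]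
    exact hC n
  obtain ⟨a, -, φ, hφ, hlim⟩ := tendsto_subseq_of_bounded Metric.isBounded_closedBall ht
  obtain ⟨e, he, hea⟩ := Submodule.mem_map.1 a.2
  refine ⟨e, he, φ, hφ, ?_⟩
  rw [hea]
  exact (continuous_subtype_val.tendsto a).comp hlim

end Pool.Agent.Q211.Heller
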