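import Pool.Agent.Q211.Heller.Proc

open MeasureTheory ProbabilityTheory Filter
open scoped ENNReal Topology

namespace Pool.Agent.Q211.Heller

/-- Weighted evaluation along the paths. -/
noncomputable def SW (w : ℕ → ℝ) (hw : Summable fun s => |w s|) (n : ℕ) :
    BM Bool n →ₗ[ℝ] ℝ where
  toFun g := ∑' s, w s * g.1 (fun i => decide (s ≤ (i : ℕ)))
  map_add' f g := by
    have hs : ∀ h : BM Bool n, Summable fun s => w s * h.1 (fun i => decide (s ≤ (i : ℕ))) := by
      intro h
      obtain ⟨-, C, hC⟩ := h.2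
      refine Summable.of_norm_bounded (hw.mul_right C) fun s => ?_
      rw [norm_mul, Real.norm_eq_abs, Real.norm_eq_abs]
      exact mul_le_mul_of_nonneg_left (hC _) (abs_nonneg _)
    rw [← (hs f).tsum_add (hs g)]
    exact tsum_congr fun s => mul_add _ _ _
  map_smul' c g := by
    rw [RingHom.id_apply, smul_eq_mul, ← tsum_mul_left]
    exact tsum_congr fun s => mul_left_comm _ _ _

lemma SW_summable (w : ℕ → ℝ) (hw : Summable fun s => |w s|) {n : ℕ} (h : BM Bool n) :
    Summable fun s => w s * h.1 (fun i => decide (s ≤ (i : ℕ))) := by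
  obtain ⟨-, C, hC⟩ := h.2
  refine Summable.of_norm_bounded (hw.mul_right C) fun s => ?_
  rw [norm_mul, Real.norm_eq_abs, Real.norm_eq_abs]
  exact mul_le_mul_of_nonneg_left (hC _) (abs_nonneg _)

noncomputable def w1 (s : ℕ) : ℝ := 3 / 4 * ((1 / 2) ^ s - (1 / 2) ^ (s + 1))
noncomputable def w2 (s : ℕ) : ℝ :=
  ((1 / 2) ^ s * Real.cos s - (1 / 2) ^ (s + 1) * Real.cos ((s + 1 : ℕ) : ℝ)) / 4
noncomputable def w3 (s : ℕ) : ℝ :=
  -(((1 / 2) ^ s * Real.sin s - (1 / 2) ^ (s + 1) * Real.sin ((s + 1 : ℕ) : ℝ)) / 4)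

lemma summable_half : Summable fun s : ℕ => 2 * (1 / 2 : ℝ) ^ s :=
  (summable_geometric_of_lt_one (by norm_num) (by norm_num)).mul_left 2

lemma w1_summable : Summable fun s => |w1 s| := by
  refine Summable.of_nonneg_of_le (fun s => abs_nonneg _) (fun s => ?_) summable_half
  unfold w1
  have h : (0 : ℝ) < (1 / 2) ^ s := by positivity
  rw [pow_succ, abs_le]
  constructor <;> nlinarith

lemma w2_summable : Summable fun s => |w2 s| := by
  refine Summable.of_nonneg_of_le (fun s => abs_nonneg _) (fun s => ?_) summable_half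
  unfold w2
  have h : (0 : ℝ) < (1 / 2) ^ s := by positivity
  have h1 := Real.neg_one_le_cos s
  have h2 := Real.cos_le_one s
  have h3 := Real.neg_one_le_cos ((s + 1 : ℕ) : ℝ)
  have h4 := Real.cos_le_one ((s + 1 : ℕ) : ℝ)
  rw [pow_succ, abs_le]
  constructor <;> nlinarith [mul_nonneg h.le (sub_nonneg.2 h1), mul_nonneg h.le (sub_nonneg.2 h2),
    mul_nonneg h.le (sub_nonneg.2 h3), mul_nonneg h.le (sub_nonneg.2 h4)]

lemma w3_summable : Summable fun s => |w3 s| := by
  refine Summable.of_nonneg_of_le (fun s => abs_nonneg _) (fun s => ?_) summable_half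
  unfold w3
  have h : (0 : ℝ) < (1 / 2) ^ s := by positivity
  have h1 := Real.neg_one_le_sin s
  have h2 := Real.sin_le_one s
  have h3 := Real.neg_one_le_sin ((s + 1 : ℕ) : ℝ)
  have h4 := Real.sin_le_one ((s + 1 : ℕ) : ℝ)
  rw [pow_succ, abs_le]
  constructor <;> nlinarith [mul_nonneg h.le (sub_nonneg.2 h1), mul_nonneg h.le (sub_nonneg.2 h2),
    mul_nonneg h.le (sub_nonneg.2 h3), mul_nonneg h.le (sub_nonneg.2 h4)]

lemma qq_split (m s : ℕ) : qq (s + m) = (1 / 2) ^ m * w1 s +
    (1 / 2) ^ m * Real.cos m * w2 s + (1 / 2) ^ m * Real.sin m * w3 s := by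
  unfold qq cc w1 w2 w3
  have e1 : (((s + m : ℕ)) : ℝ) = s + m := by push_cast; ring
  have e2 : (((s + m + 1 : ℕ)) : ℝ) = ((s + 1 : ℕ) : ℝ) + m := by push_cast; ring
  rw [e1, e2, Real.cos_add, Real.cos_add, pow_succ, pow_add, pow_succ]
  ring

/-- The four left functionals. -/
noncomputable def th0 (m : ℕ) : BM Bool m →ₗ[ℝ] ℝ where
  toFun f := ∑ t ∈ Finset.range m, qq t * f.1 (fun i => decide (t ≤ (i : ℕ)))
  map_add' f g := by
    rw [← Finset.sum_add_distrib]
    exact Finset.sum_congr rfl fun t _ => mul_add _ _ _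
  map_smul' c f := by
    rw [RingHom.id_apply, smul_eq_mul, Finset.mul_sum]
    exact Finset.sum_congr rfl fun t _ => mul_left_comm _ _ _

/-- Evaluation at a constant word, with a weight. -/
noncomputable def evc (κ : ℕ → ℝ) (b : Bool) (m : ℕ) : BM Bool m →ₗ[ℝ] ℝ where
  toFun f := κ m * f.1 (fun _ => b)
  map_add' _ _ := mul_add _ _ _
  map_smul' _ _ := mul_left_comm _ _ _

lemma bilin_eq (m n : ℕ) (f : BM Bool m) (g : BM Bool n) :
    pairn nu f n g = th0 m f * evc (fun _ => 1) true n g +
      evc (fun m => (1 / 2) ^ m) false m f * SW w1 w1_summable n g +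
      evc (fun m => (1 / 2) ^ m * Real.cos m) false m f * SW w2 w2_summable n g +
      evc (fun m => (1 / 2) ^ m * Real.sin m) false m f * SW w3 w3_summable n g := by
  obtain ⟨hf, C, hC⟩ := f.2
  obtain ⟨hg, D, hD⟩ := g.2
  have h1 := nu_integral (F := fun y => f.1 (fun i => y i) * g.1 (fun i => y (m + i)))
    ((hf.comp (measurable_pi_lambda _ fun i => measurable_pi_apply _)).mul
      (hg.comp (measurable_pi_lambda _ fun i => measurable_pi_apply _))) (C := C * D)
    (fun y => by
      rw [abs_mul]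
      exact mul_le_mul (hC _) (hD _) (abs_nonneg _) ((abs_nonneg _).trans (hC fun i => y i)))
  have h2 : pairn nu f n g = ∫ y, f.1 (fun i => y i) * g.1 (fun i => y (m + i)) ∂nu := rfl
  rw [h2, ← h1.tsum_eq, ← h1.summable.sum_add_tsum_nat_add m]
  have h3 : ∀ t ∈ Finset.range m,
      qq t * (f.1 (fun i => yy t i) * g.1 (fun i => yy t (m + i))) =
      qq t * f.1 (fun i => decide (t ≤ (i : ℕ))) * g.1 (fun _ => true) := by
    intro t ht
    have htm := Finset.mem_range.1 ht
    have e : (fun i : Fin n => yy t (m + i)) = fun _ => true := by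
      funext i
      simp only [yy, decide_eq_true_eq]
      omega
    rw [e, mul_assoc]
    rfl
  have h4 : ∀ s, qq (s + m) *
      (f.1 (fun i => yy (s + m) i) * g.1 (fun i => yy (s + m) (m + i))) =
      (1 / 2) ^ m * f.1 (fun _ => false) * (w1 s * g.1 (fun i => decide (s ≤ (i : ℕ)))) +
      (1 / 2) ^ m * Real.cos m * f.1 (fun _ => false) *
        (w2 s * g.1 (fun i => decide (s ≤ (i : ℕ)))) +
      (1 / 2) ^ m * Real.sin m * f.1 (fun _ => false) *
        (w3 s * g.1 (fun i => decide (s ≤ (i : ℕ)))) := by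
    intro s
    have e1 : (fun i : Fin m => yy (s + m) i) = fun _ => false := by
      funext i
      simp only [yy, decide_eq_false_iff_not, not_le]
      omega
    have e2 : (fun i : Fin n => yy (s + m) (m + i)) =
        fun i : Fin n => decide (s ≤ (i : ℕ)) := by
      funext i
      simp only [yy, decide_eq_decide]
      omega
    rw [e1, e2, qq_split]
    ring
  have s1 := (SW_summable w1 w1_summable g).mul_left ((1 / 2) ^ m * f.1 (fun _ => false))
  have s2 := (SW_summable w2 w2_summable g).mul_left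
    ((1 / 2) ^ m * Real.cos m * f.1 (fun _ => false))
  have s3 := (SW_summable w3 w3_summable g).mul_left
    ((1 / 2) ^ m * Real.sin m * f.1 (fun _ => false))
  rw [Finset.sum_congr rfl h3, tsum_congr h4, (s1.add s2).tsum_add s3, s1.tsum_add s2,
    tsum_mul_left, tsum_mul_left, tsum_mul_left, ← Finset.sum_mul]
  simp only [th0, evc, SW, LinearMap.coe_mk, AddHom.coe_mk]
  ring

/-- Extension of functionals to `A`. -/
noncomputable def ext (φ : ∀ n, BM Bool n →ₗ[ℝ] ℝ) : AA Bool →ₗ[ℝ] ℝ :=
  DirectSum.toModule ℝ ℕ ℝ φ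

/-- The bilinear form has rank at most four. -/
lemma form_eq (m : ℕ) (f : BM Bool m) (η : AA Bool) :
    DirectSum.toModule ℝ ℕ ℝ (pairn nu f) η =
    th0 m f * ext (evc (fun _ => 1) true) η +
      evc (fun m => (1 / 2) ^ m) false m f * ext (SW w1 w1_summable) η +
      evc (fun m => (1 / 2) ^ m * Real.cos m) false m f * ext (SW w2 w2_summable) η +
      evc (fun m => (1 / 2) ^ m * Real.sin m) false m f * ext (SW w3 w3_summable) η := by
  classical
  induction η using DirectSum.induction_on with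
  | zero => simp
  | of n g =>
    have h := bilin_eq m n f g
    have hm : ∀ φ : ∀ n, BM Bool n →ₗ[ℝ] ℝ, ∀ k (x : BM Bool k),
        DirectSum.toModule ℝ ℕ ℝ φ (DirectSum.of (fun n => BM Bool n) k x) = φ k x := by
      intro φ k x
      rw [← DirectSum.lof_eq_of ℝ]
      exact DirectSum.toModule_lof _ _ _
    simp only [ext]
    rw [hm, hm, hm, hm, hm, ← h]
  | add x y hx hy =>
    simp only [map_add, mul_add, hx, hy]
    ring

theorem fin_L : LFinite nu := by
  unfold LFinite
  let Φ : AA Bool →ₗ[ℝ] (ℝ × ℝ × ℝ × ℝ) :=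
    (ext (evc (fun _ => 1) true)).prod ((ext (SW w1 w1_summable)).prod
      ((ext (SW w2 w2_summable)).prod (ext (SW w3 w3_summable))))
  have hker : LinearMap.ker Φ ≤ JJ nu := by
    intro η hη
    have h0 : Φ η = 0 := hη
    have h1 : ext (evc (fun _ => 1) true) η = 0 := congrArg (fun p => p.1) h0
    have h2 : ext (SW w1 w1_summable) η = 0 := congrArg (fun p => p.2.1) h0
    have h3 : ext (SW w2 w2_summable) η = 0 := congrArg (fun p => p.2.2.1) h0
    have h4 : ext (SW w3 w3_summable) η = 0 := congrArg (fun p => p.2.2.2) h0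
    simp only [JJ, Submodule.mem_iInf, LinearMap.mem_ker]
    intro m ξ
    rw [form_eq, h1, h2, h3, h4]
    ring
  have hfin : FiniteDimensional ℝ (AA Bool ⧸ LinearMap.ker Φ) :=
    Module.Finite.equiv Φ.quotKerEquivRange.symm
  exact Module.Finite.of_surjective (Submodule.factor hker) (Submodule.factor_surjective hker)

end Pool.Agent.Q211.Heller
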