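import Pool.Agent.Q211.Heller.Contra

open MeasureTheory ProbabilityTheory Filter
open scoped ENNReal Topology

namespace Pool.Agent.Q211.Heller

variable {S : Type*} [MeasurableSpace S] {P : Kernel S S} {Z : Set S} {m : ℕ → Measure S}

theorem no_flow [IsMarkovKernel P] (h : Flow P Z m) (hFR : FR P) (hZ : MeasurableSet Z) :
    False := by
  obtain ⟨e, he, he0⟩ := exists_e h hFR hZ
  have hfd := range_fd hFR hZ
  set T := TT P hFR hZ with hT
  obtain ⟨hem, C, hC⟩ := e.2
  set D := max C 0 with hDdef
  have hD0 : 0 ≤ D := le_max_right _ _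
  have hD : ∀ x, ‖e.1 x‖ ≤ D := fun x => (hC x).trans (le_max_left _ _)
  set A : ℕ → ℝ := fun n => ∫ x, ‖e.1 x‖ ∂(m n) with hA
  have hAT : ∀ n, ∫ x, TR P Z (fun y => ‖e.1 y‖) x ∂(m n) = A (n + 1) := by
    intro n
    have := h.fin n
    obtain ⟨-, e2⟩ := norm_step hFR hZ (m n) (h.compl hZ n) e.2
    rw [e2, ← h.step]
  have hAm : ∀ n, A n ≤ A (n + 1) := by
    intro n
    have := h.fin n
    obtain ⟨e1, -⟩ := norm_step hFR hZ (m n) (h.compl hZ n) e.2
    rw [hAT] at e1
    refine le_trans (le_of_eq ?_) e1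
    refine integral_congr_ae ?_
    filter_upwards [he n] with x hx
    rw [hx, norm_mul, gam_norm, one_mul]
  have hA0 : ∀ n, 1 / 16 ≤ A n := by
    intro n
    induction n with
    | zero => exact he0
    | succ n ih => exact ih.trans (hAm n)
  have hAD : ∀ n, A n ≤ D := fun n => NL_int_le h hD0 hD n
  obtain ⟨hTm, D', hTD⟩ := TR_nice hFR hZ (g := fun y => ‖e.1 y‖) hem.norm (C := D)
    (fun x => by simpa using hD x)
  -- eigenvalue relations modulo null functions
  have hek : ∀ k, T (ek e k) - gam ^ k • ek e k ∈ NL h := by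
    intro k
    rw [mem_NL]
    set G : ℕ → ℝ := fun n => ∫ x, ‖(T (ek e k) - gam ^ k • ek e k).1 x‖ ∂(m n) with hG
    have hG0 : ∀ n, 0 ≤ G n := fun n => integral_nonneg fun x => norm_nonneg _
    have hGle : ∀ (t : ℝ), 0 < t → ∀ n, G n ≤
        k * t * A (n + 1) + (k / t + 1) * (A (n + 1) - A n) := by
      intro t ht n
      have := h.fin n
      have iT : Integrable (TR P Z (fun y => ‖e.1 y‖)) (m n) := integrable_of_bdd hTm hTD _
      have ie : Integrable (fun y => ‖e.1 y‖) (m n) := BMC.norm_int e.2 _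
      have j1 : Integrable (fun x => k * t * TR P Z (fun y => ‖e.1 y‖) x) (m n) :=
        iT.const_mul _
      have j2 : Integrable (fun x => (k / t + 1) * (TR P Z (fun y => ‖e.1 y‖) x - ‖e.1 x‖))
          (m n) := (iT.sub ie).const_mul _
      have e1 : ∫ x, (k * t * TR P Z (fun y => ‖e.1 y‖) x +
          (k / t + 1) * (TR P Z (fun y => ‖e.1 y‖) x - ‖e.1 x‖)) ∂(m n) =
          k * t * A (n + 1) + (k / t + 1) * (A (n + 1) - A n) := by
        rw [integral_add j1 j2, integral_const_mul, integral_const_mul, integral_sub iT ie, hAT]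
      rw [← e1]
      refine integral_mono_ae (BMC.norm_int (T (ek e k) - gam ^ k • ek e k).2 _) (j1.add j2) ?_
      have hae : ∀ᵐ x ∂(m n), x ∈ Z := by
        rw [ae_iff]
        exact h.compl hZ n
      filter_upwards [he n, hae] with x hx hxZ
      exact pt_ineq e hxZ hx k ht
    have hsum : ∀ (t : ℝ), 0 < t → ∀ N : ℕ, 1 ≤ N → (∑ n ∈ Finset.range N, G n) / N ≤
        k * t * D + (k / t + 1) * D / N := by
      intro t ht N hN
      have hN0 : (0 : ℝ) < N := by exact_mod_cast hN
      rw [div_le_iff₀ hN0]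
      have h1 : ∑ n ∈ Finset.range N, G n ≤
          ∑ n ∈ Finset.range N, (k * t * D + (k / t + 1) * (A (n + 1) - A n)) := by
        refine Finset.sum_le_sum fun n _ => (hGle t ht n).trans ?_
        have := hAD (n + 1)
        have hkt : 0 ≤ k * t := by positivity
        gcongr
      refine h1.trans ?_
      rw [Finset.sum_add_distrib, Finset.sum_const, Finset.card_range, nsmul_eq_mul,
        ← Finset.mul_sum, Finset.sum_range_sub]
      have h2 := hAD N
      have h3 := hA0 0
      have h4 : (0 : ℝ) ≤ k / t + 1 := by positivity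
      have h5 : (k / t + 1) * (A N - A 0) ≤ (k / t + 1) * D := by
        refine mul_le_mul_of_nonneg_left ?_ h4
        linarith
      have h6 : (k * t * D + (k / t + 1) * D / N) * N = N * (k * t * D) + (k / t + 1) * D := by
        field_simp
      linarith
    rw [tendsto_order]
    constructor
    · intro a ha
      refine Eventually.of_forall fun N => lt_of_lt_of_le ha ?_
      exact div_nonneg (Finset.sum_nonneg fun n _ => hG0 n) (Nat.cast_nonneg N)
    · intro a ha
      set t : ℝ := a / (2 * (k + 1) * (D + 1)) with htdef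
      have ht : 0 < t := by positivity
      have h1 : Tendsto (fun N : ℕ => ((k / t + 1) * D) / (N : ℝ)) atTop (𝓝 0) :=
        tendsto_const_div_atTop_nhds_zero_nat _
      filter_upwards [h1.eventually_lt_const (half_pos ha), eventually_ge_atTop 1] with N hN hN1
      refine (hsum t ht N hN1).trans_lt ?_
      have h2 : k * t * D ≤ a / 2 := by
        rw [htdef, show (k : ℝ) * (a / (2 * (k + 1) * (D + 1))) * D =
          (a / 2) * ((k * D) / ((k + 1) * (D + 1))) by field_simp]
        have h3 : ((k : ℝ) * D) / ((k + 1) * (D + 1)) ≤ 1 := by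
          rw [div_le_one (by positivity)]
          have : (0 : ℝ) ≤ k := Nat.cast_nonneg k
          nlinarith
        calc a / 2 * ((k * D) / ((k + 1) * (D + 1))) ≤ a / 2 * 1 := by gcongr
          _ = a / 2 := mul_one _
      linarith
  have hne : ∀ k, ek e k ∉ NL h := by
    intro k hk
    rw [mem_NL] at hk
    have h1 : (1 : ℝ) / 16 ≤ 0 := by
      refine ge_of_tendsto hk ?_
      filter_upwards [eventually_ge_atTop 1] with N hN
      have hN0 : (0 : ℝ) < N := by exact_mod_cast hN
      rw [le_div_iff₀ hN0]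
      have h2 : ∀ n, ∫ x, ‖(ek e k).1 x‖ ∂(m n) = A n := by
        intro n
        refine integral_congr_ae (ae_of_all _ fun x => ?_)
        exact ek_norm (e.1 x) k
      rw [Finset.sum_congr rfl fun n _ => h2 n]
      calc 1 / 16 * (N : ℝ) = ∑ n ∈ Finset.range N, (1 / 16 : ℝ) := by
            rw [Finset.sum_const, Finset.card_range, nsmul_eq_mul, mul_comm]
        _ ≤ _ := Finset.sum_le_sum fun n _ => hA0 n
    norm_num at h1
  -- the quotient
  set Tb := (NL h).mapQ (NL h) T (NL_T h hFR hZ) with hTb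
  set v : ℕ → (BMC S ⧸ NL h) := fun k => (NL h).mkQ (ek e k) with hv
  have hTv : ∀ k, Tb (v k) = gam ^ k • v k := by
    intro k
    have h1 : Tb (v k) = (NL h).mkQ (T (ek e k)) := rfl
    rw [h1, hv]
    simp only
    rw [← map_smul, ← sub_eq_zero, ← map_sub]
    rw [Submodule.mkQ_apply, Submodule.Quotient.mk_eq_zero]
    exact hek k
  have hvne : ∀ k, v k ≠ 0 := by
    intro k hk
    rw [hv] at hk
    simp only [Submodule.mkQ_apply, Submodule.Quotient.mk_eq_zero] at hk
    exact hne k hk
  have hLI : LinearIndependent ℂ v :=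
    Module.End.eigenvectors_linearIndependent' Tb (fun k : ℕ => gam ^ k) gam_inj v
      fun k => ⟨Module.End.mem_eigenspace_iff.2 (hTv k), hvne k⟩
  let R : Submodule ℂ (BMC S ⧸ NL h) := (LinearMap.range T).map (NL h).mkQ
  have hR : FiniteDimensional ℂ R := inferInstance
  have hvR : ∀ k, v k ∈ R := by
    intro k
    have h1 : v k = (gam ^ k)⁻¹ • (NL h).mkQ (T (ek e k)) := by
      have h2 : (NL h).mkQ (T (ek e k)) = Tb (v k) := rfl
      rw [h2, hTv, smul_smul, inv_mul_cancel₀ (pow_ne_zero _ gam_ne), one_smul]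
    rw [h1]
    exact R.smul_mem _ (Submodule.mem_map_of_mem ⟨_, rfl⟩)
  let w : ℕ → R := fun k => ⟨v k, hvR k⟩
  have hw : LinearIndependent ℂ w := by
    refine LinearIndependent.of_comp R.subtype ?_
    exact hLI
  have hcard := (hw.comp (Fin.val : Fin (Module.finrank ℂ R + 1) → ℕ)
    Fin.val_injective).fintype_card_le_finrank
  rw [Fintype.card_fin] at hcard
  omega

end Pool.Agent.Q211.Heller
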