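import Mathlib

open MeasureTheory ProbabilityTheory Filter
open scoped ENNReal Topology

namespace Pool.Agent.Q211.Heller

variable {S : Type*} [MeasurableSpace S]

/-- Bounded measurable complex functions. -/
def BMC (S : Type*) [MeasurableSpace S] : Submodule ℂ (S → ℂ) where
  carrier := {f | Measurable f ∧ ∃ C : ℝ, ∀ x, ‖f x‖ ≤ C}
  add_mem' := by
    rintro f g ⟨hf, C, hC⟩ ⟨hg, D, hD⟩
    exact ⟨hf.add hg, C + D, fun x => (norm_add_le _ _).trans (add_le_add (hC x) (hD x))⟩
  zero_mem' := ⟨measurable_const, 0, fun x => by simp⟩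
  smul_mem' := by
    rintro c f ⟨hf, C, hC⟩
    exact ⟨hf.const_smul c, ‖c‖ * C, fun x => by
      simpa [norm_smul] using mul_le_mul_of_nonneg_left (hC x) (norm_nonneg c)⟩

lemma integrable_of_bdd {E : Type*} [NormedAddCommGroup E] [MeasurableSpace E] [BorelSpace E]
    [SecondCountableTopology E] {f : S → E} (hf : Measurable f) {C : ℝ} (hC : ∀ x, ‖f x‖ ≤ C)
    (μ : Measure S) [IsFiniteMeasure μ] : Integrable f μ :=
  Integrable.of_bound hf.aestronglyMeasurable C (ae_of_all _ hC)

lemma BMC.integrable {f : S → ℂ} (hf : f ∈ BMC S) (μ : Measure S) [IsFiniteMeasure μ] :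
    Integrable f μ := by
  obtain ⟨h, C, hC⟩ := hf
  exact integrable_of_bdd h hC μ

/-- The weighted killed transition operator. -/
noncomputable def TF (P : Kernel S S) (Z : Set S) (f : S → ℂ) (x : S) : ℂ :=
  Z.indicator (fun x => 2 * ∫ y in Z, f y ∂(P x)) x

/-- The same operator on real functions. -/
noncomputable def TR (P : Kernel S S) (Z : Set S) (g : S → ℝ) (x : S) : ℝ :=
  Z.indicator (fun x => 2 * ∫ y in Z, g y ∂(P x)) x

variable {P : Kernel S S} {Z : Set S}

lemma TF_add [IsMarkovKernel P] {f g : S → ℂ} (hf : f ∈ BMC S) (hg : g ∈ BMC S) :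
    TF P Z (f + g) = TF P Z f + TF P Z g := by
  funext x
  by_cases hx : x ∈ Z
  · simp only [TF, Set.indicator_of_mem hx, Pi.add_apply]
    rw [integral_add (BMC.integrable hf _) (BMC.integrable hg _)]
    ring
  · simp [TF, Set.indicator_of_notMem hx]

lemma TF_smul (c : ℂ) (f : S → ℂ) : TF P Z (c • f) = c • TF P Z f := by
  funext x
  by_cases hx : x ∈ Z
  · simp only [TF, Set.indicator_of_mem hx, Pi.smul_apply, smul_eq_mul]
    rw [integral_const_mul]
    ring
  · simp [TF, Set.indicator_of_notMem hx]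

/-- Finite rank of the transition function. -/
def FR (P : Kernel S S) : Prop :=
  ∃ (r : ℕ) (a : Fin r → S → ℝ) (b : Fin r → Set S → ℝ),
    ∀ x B, MeasurableSet B → (P x B).toReal = ∑ j, a j x * b j B

/-- The space generated by the transition probabilities. -/
def WW (P : Kernel S S) (Z : Set S) : Submodule ℂ (S → ℂ) :=
  Submodule.span ℂ {g | ∃ B, MeasurableSet B ∧
    g = Z.indicator (fun x => ((P x B).toReal : ℂ))}

lemma WW_fd (h : FR P) (Z : Set S) : FiniteDimensional ℂ (WW P Z) := by
  obtain ⟨r, a, b, hab⟩ := h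
  have hle : WW P Z ≤ Submodule.span ℂ
      (Set.range fun j : Fin r => Z.indicator (fun x => (a j x : ℂ))) := by
    refine Submodule.span_le.2 ?_
    rintro g ⟨B, hB, rfl⟩
    have : Z.indicator (fun x => ((P x B).toReal : ℂ)) =
        ∑ j, (b j B : ℂ) • Z.indicator (fun x => (a j x : ℂ)) := by
      funext x
      rw [Finset.sum_apply]
      by_cases hx : x ∈ Z
      · simp only [Set.indicator_of_mem hx, Pi.smul_apply, smul_eq_mul]
        rw [hab x B hB]
        push_cast
        exact Finset.sum_congr rfl fun j _ => mul_comm _ _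
      · simp [Set.indicator_of_notMem hx]
    rw [this]
    exact Submodule.sum_mem _ fun j _ => Submodule.smul_mem _ _ (Submodule.subset_span ⟨j, rfl⟩)
  have : FiniteDimensional ℂ (Submodule.span ℂ
      (Set.range fun j : Fin r => Z.indicator (fun x => (a j x : ℂ)))) :=
    FiniteDimensional.span_of_finite ℂ (Set.finite_range _)
  exact Submodule.finiteDimensional_of_le hle

lemma WW_le [IsMarkovKernel P] (hZ : MeasurableSet Z) : WW P Z ≤ BMC S := by
  refine Submodule.span_le.2 ?_
  rintro g ⟨B, hB, rfl⟩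
  refine ⟨?_, 1, fun x => ?_⟩
  · exact (Complex.measurable_ofReal.comp
      (ENNReal.measurable_toReal.comp (P.measurable_coe hB))).indicator hZ
  · by_cases hx : x ∈ Z
    · rw [Set.indicator_of_mem hx, Complex.norm_real, Real.norm_eq_abs,
        abs_of_nonneg ENNReal.toReal_nonneg]
      exact ENNReal.toReal_le_of_le_ofReal zero_le_one (by simpa using prob_le_one)
    · simp [Set.indicator_of_notMem hx]

lemma TF_indicator [IsMarkovKernel P] (hZ : MeasurableSet Z) (c : ℂ) {B : Set S}
    (hB : MeasurableSet B) : TF P Z (B.indicator fun _ => c) ∈ WW P Z := by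
  have : TF P Z (B.indicator fun _ => c) =
      (2 * c) • Z.indicator (fun x => ((P x (B ∩ Z)).toReal : ℂ)) := by
    funext x
    by_cases hx : x ∈ Z
    · simp only [TF, Set.indicator_of_mem hx, Pi.smul_apply, smul_eq_mul]
      rw [integral_indicator hB, integral_const, measureReal_restrict_apply_univ,
        measureReal_restrict_apply hB]
      simp only [measureReal_def, Complex.real_smul]
      ring
    · simp [TF, Set.indicator_of_notMem hx]
  rw [this]
  exact Submodule.smul_mem _ _ (Submodule.subset_span ⟨_, hB.inter hZ, rfl⟩)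

lemma simple_mem (f : SimpleFunc S ℂ) : (f : S → ℂ) ∈ BMC S := by
  refine ⟨f.measurable, ?_⟩
  obtain ⟨C, hC⟩ := f.exists_forall_norm_le
  exact ⟨C, hC⟩

lemma TF_simple [IsMarkovKernel P] (hZ : MeasurableSet Z) (f : SimpleFunc S ℂ) :
    TF P Z f ∈ WW P Z := by
  induction f using SimpleFunc.induction with
  | const c hs =>
    rename_i s
    classical
    have : (SimpleFunc.piecewise s hs (SimpleFunc.const S c) (SimpleFunc.const S 0) : S → ℂ) =
        Set.indicator s fun _ => c := by
      rw [SimpleFunc.coe_piecewise, SimpleFunc.coe_const, SimpleFunc.coe_const]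
      exact Set.piecewise_eq_indicator
    have h2 := TF_indicator (P := P) hZ c hs
    rw [← this] at h2
    convert h2
  | add _ hf hg =>
    rw [SimpleFunc.coe_add, TF_add (simple_mem _) (simple_mem _)]
    exact Submodule.add_mem _ hf hg

lemma TF_mem [IsMarkovKernel P] (hFR : FR P) (hZ : MeasurableSet Z) {f : S → ℂ}
    (hf : f ∈ BMC S) : TF P Z f ∈ WW P Z := by
  have := WW_fd hFR Z
  obtain ⟨hm, C, hC⟩ := hf
  have hsm : StronglyMeasurable f := hm.stronglyMeasurable
  have hcl : IsClosed (WW P Z : Set (S → ℂ)) := (WW P Z).closed_of_finiteDimensional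
  have hC0 : ∀ x, 0 ≤ C := fun x => (norm_nonneg _).trans (hC x)
  have hlim : Tendsto (fun n => TF P Z (hsm.approxBounded C n)) atTop (𝓝 (TF P Z f)) := by
    rw [tendsto_pi_nhds]
    intro x
    by_cases hx : x ∈ Z
    · simp only [TF, Set.indicator_of_mem hx]
      refine Tendsto.const_mul 2 ?_
      refine tendsto_integral_of_dominated_convergence (fun _ => C)
        (fun n => (SimpleFunc.measurable _).aestronglyMeasurable) (integrable_const _)
        (fun n => ae_of_all _ fun y => hsm.norm_approxBounded_le (hC0 y) n y)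
        (ae_of_all _ fun y => hsm.tendsto_approxBounded_of_norm_le (hC y))
    · simp only [TF, Set.indicator_of_notMem hx]
      exact tendsto_const_nhds
  exact hcl.mem_of_tendsto hlim (Eventually.of_forall fun n => TF_simple hZ _)

/-- The operator as a linear map of the bounded measurable functions. -/
noncomputable def TT (P : Kernel S S) [IsMarkovKernel P] (hFR : FR P) {Z : Set S}
    (hZ : MeasurableSet Z) : BMC S →ₗ[ℂ] BMC S where
  toFun f := ⟨TF P Z f.1, WW_le hZ (TF_mem hFR hZ f.2)⟩
  map_add' f g := Subtype.ext (TF_add f.2 g.2)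
  map_smul' c f := Subtype.ext (TF_smul c f.1)

@[simp] lemma TT_apply [IsMarkovKernel P] (hFR : FR P) (hZ : MeasurableSet Z) (f : BMC S) :
    (TT P hFR hZ f).1 = TF P Z f.1 := rfl

lemma range_fd [IsMarkovKernel P] (hFR : FR P) (hZ : MeasurableSet Z) :
    FiniteDimensional ℂ (LinearMap.range (TT P hFR hZ)) := by
  have := WW_fd hFR Z
  have h : ∀ f : LinearMap.range (TT P hFR hZ), (f.1.1 : S → ℂ) ∈ WW P Z := by
    rintro ⟨f, g, rfl⟩
    exact TF_mem hFR hZ g.2
  let φ : LinearMap.range (TT P hFR hZ) →ₗ[ℂ] WW P Z :=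
    { toFun := fun f => ⟨f.1.1, h f⟩
      map_add' := fun f g => rfl
      map_smul' := fun c f => rfl }
  refine FiniteDimensional.of_injective φ fun f g hfg => ?_
  have : (φ f).1 = (φ g).1 := congrArg Subtype.val hfg
  exact Subtype.ext (Subtype.ext this)

/-- One step of the weighted killed evolution of measures. -/
noncomputable def KS (P : Kernel S S) (Z : Set S) (m : Measure S) : Measure S :=
  ((2 : ℝ≥0∞) • m.bind P).restrict Z

instance [IsMarkovKernel P] (m : Measure S) [IsFiniteMeasure m] : IsFiniteMeasure (KS P Z m) := by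
  have : IsFiniteMeasure (m.bind P) := by
    refine ⟨?_⟩
    rw [Measure.bind_apply MeasurableSet.univ P.measurable.aemeasurable]
    simp
  unfold KS
  have h2 : IsFiniteMeasure ((2 : ℝ≥0∞) • m.bind P) := by
    refine ⟨?_⟩
    rw [Measure.smul_apply, smul_eq_mul]
    exact ENNReal.mul_lt_top (by simp) (measure_lt_top _ _)
  infer_instance

lemma KS_apply (m : Measure S) {B : Set S} (hB : MeasurableSet B) (hZ : MeasurableSet Z) :
    KS P Z m B = 2 * ∫⁻ x, P x (B ∩ Z) ∂m := by
  rw [KS, Measure.restrict_apply hB, Measure.smul_apply,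
    Measure.bind_apply (hB.inter hZ) P.measurable.aemeasurable, smul_eq_mul]

lemma KS_compl (m : Measure S) (hZ : MeasurableSet Z) : KS P Z m Zᶜ = 0 := by
  rw [KS, Measure.restrict_apply hZ.compl]
  simp

lemma int_step {E : Type*} [NormedAddCommGroup E] [NormedSpace ℝ E]
    [IsMarkovKernel P] (hZ : MeasurableSet Z) (m : Measure S)
    [IsFiniteMeasure m] (hm : m Zᶜ = 0) {f : S → E} (hf : Integrable f (m.bind P)) :
    ∫ x, Z.indicator (fun x => (2 : ℝ) • ∫ y in Z, f y ∂(P x)) x ∂m = ∫ y, f y ∂(KS P Z m) := by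
  rw [integral_indicator hZ]
  have hr : m.restrict Z = m := Measure.restrict_eq_self_of_ae_mem (by
    rw [ae_iff]
    exact hm)
  rw [hr, integral_smul, KS, Measure.restrict_smul, integral_smul_measure]
  congr 1
  have h1 := Kernel.setIntegral_comp (κ := Kernel.const Unit m) (η := P) (a := ()) (f := f)
    (s := Z) hZ
  have h2 : (P ∘ₖ Kernel.const Unit m) () = m.bind P := by
    rw [Kernel.comp_apply, Kernel.const_apply]
  rw [h2, Kernel.const_apply] at h1
  exact (h1 hf.integrableOn).symm

lemma int_TF [IsMarkovKernel P] (hZ : MeasurableSet Z) (m : Measure S)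
    [IsFiniteMeasure m] (hm : m Zᶜ = 0) {f : S → ℂ} (hf : f ∈ BMC S) :
    ∫ x, TF P Z f x ∂m = ∫ y, f y ∂(KS P Z m) := by
  have : IsFiniteMeasure (m.bind P) := by
    refine ⟨?_⟩
    rw [Measure.bind_apply MeasurableSet.univ P.measurable.aemeasurable]
    simp
  rw [← int_step hZ m hm (BMC.integrable hf _)]
  refine integral_congr_ae (ae_of_all _ fun x => ?_)
  simp [TF]

lemma int_TR [IsMarkovKernel P] (hZ : MeasurableSet Z) (m : Measure S)
    [IsFiniteMeasure m] (hm : m Zᶜ = 0) {g : S → ℝ} (hg : Measurable g) {C : ℝ}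
    (hC : ∀ x, ‖g x‖ ≤ C) :
    ∫ x, TR P Z g x ∂m = ∫ y, g y ∂(KS P Z m) := by
  have : IsFiniteMeasure (m.bind P) := by
    refine ⟨?_⟩
    rw [Measure.bind_apply MeasurableSet.univ P.measurable.aemeasurable]
    simp
  rw [← int_step hZ m hm (integrable_of_bdd hg hC _)]
  refine integral_congr_ae (ae_of_all _ fun x => ?_)
  simp [TR]

lemma norm_TF_le (f : S → ℂ) (x : S) :
    ‖TF P Z f x‖ ≤ TR P Z (fun y => ‖f y‖) x := by
  by_cases hx : x ∈ Z
  · simp only [TF, TR, Set.indicator_of_mem hx, norm_mul]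
    have := norm_integral_le_integral_norm (μ := (P x).restrict Z) f
    simp only [Complex.norm_ofNat]
    linarith
  · simp [TF, TR, Set.indicator_of_notMem hx]

end Pool.Agent.Q211.Heller
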