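import Pool.Agent.Q211.Heller.NoFlow
import Pool.Agent.Q211.Heller.Defs

open MeasureTheory ProbabilityTheory Filter
open scoped ENNReal Topology

namespace Pool.Agent.Q211.Heller

/-- The survival probabilities. -/
noncomputable def cc (t : ℕ) : ℝ := (1 / 2) ^ t * (3 + Real.cos t) / 4

/-- The weights. -/
noncomputable def qq (t : ℕ) : ℝ := cc t - cc (t + 1)

lemma cc_zero : cc 0 = 1 := by
  simp [cc]
  norm_num

lemma cc_nonneg (t : ℕ) : 0 ≤ cc t := by
  unfold cc
  have := Real.neg_one_le_cos t
  have h : (0 : ℝ) ≤ 3 + Real.cos t := by linarith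
  positivity

lemma qq_nonneg (t : ℕ) : 0 ≤ qq t := by
  unfold qq cc
  have h1 := Real.neg_one_le_cos t
  have h2 := Real.cos_le_one ((t + 1 : ℕ) : ℝ)
  have h3 : (1 / 2 : ℝ) ^ t * (3 + Real.cos t) / 4 -
      (1 / 2) ^ (t + 1) * (3 + Real.cos ((t + 1 : ℕ) : ℝ)) / 4 =
      (1 / 2) ^ t * ((3 + 2 * Real.cos t - Real.cos ((t + 1 : ℕ) : ℝ)) / 8) := by
    rw [pow_succ]
    ring
  rw [h3]
  have h4 : (0 : ℝ) ≤ (3 + 2 * Real.cos t - Real.cos ((t + 1 : ℕ) : ℝ)) / 8 := by linarith
  positivity

lemma cc_tendsto : Tendsto cc atTop (𝓝 0) := by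
  have h1 : Tendsto (fun t : ℕ => (1 / 2 : ℝ) ^ t) atTop (𝓝 0) :=
    tendsto_pow_atTop_nhds_zero_of_lt_one (by norm_num) (by norm_num)
  refine squeeze_zero cc_nonneg (fun t => ?_) h1
  unfold cc
  have := Real.cos_le_one t
  have h2 : (0 : ℝ) < (1 / 2 : ℝ) ^ t := by positivity
  nlinarith

lemma hasSum_qq (n : ℕ) : HasSum (fun t => qq (t + n)) (cc n) := by
  rw [hasSum_iff_tendsto_nat_of_nonneg fun t => qq_nonneg _]
  have h1 : ∀ N, ∑ i ∈ Finset.range N, qq (i + n) = cc n - cc (N + n) := by
    intro N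
    induction N with
    | zero => simp
    | succ N ih =>
      rw [Finset.sum_range_succ, ih, qq, add_right_comm N n 1]
      ring
  simp only [h1]
  have h2 := ((tendsto_add_atTop_iff_nat n).2 cc_tendsto).const_sub (cc n)
  simpa using h2

lemma summable_qq : Summable qq := by
  have := (hasSum_qq 0).summable
  simpa using this

/-- The paths. -/
def yy (t : ℕ) : ℕ → Bool := fun k => decide (t ≤ k)

/-- The law of the process. -/
noncomputable def nu : Measure (ℕ → Bool) :=
  Measure.sum fun t => ENNReal.ofReal (qq t) • Measure.dirac (yy t)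

instance : IsProbabilityMeasure nu := by
  refine ⟨?_⟩
  rw [nu, Measure.sum_apply _ MeasurableSet.univ]
  simp only [Measure.smul_apply, measure_univ, smul_eq_mul, mul_one]
  rw [← ENNReal.ofReal_tsum_of_nonneg qq_nonneg summable_qq]
  have := (hasSum_qq 0).tsum_eq
  simp only [add_zero, cc_zero] at this
  rw [this, ENNReal.ofReal_one]

lemma nu_integral {F : (ℕ → Bool) → ℝ} (hF : Measurable F) {C : ℝ} (hC : ∀ y, |F y| ≤ C) :
    HasSum (fun t => qq t * F (yy t)) (∫ y, F y ∂nu) := by
  have hint : Integrable F nu := Integrable.of_bound hF.aestronglyMeasurable C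
    (ae_of_all _ hC)
  have h := hasSum_integral_measure hint
  have h2 : (fun t => qq t * F (yy t)) =
      fun t => ∫ x, F x ∂(ENNReal.ofReal (qq t) • Measure.dirac (yy t)) := by
    funext t
    rw [integral_smul_measure, integral_dirac, ENNReal.toReal_ofReal (qq_nonneg t), smul_eq_mul]
  rw [h2]
  exact h

lemma nu_zero (n : ℕ) : nu.real {y | ∀ i < n, y i = false} = cc n := by
  have hm : MeasurableSet {y : ℕ → Bool | ∀ i < n, y i = false} := by
    have : {y : ℕ → Bool | ∀ i < n, y i = false} = ⋂ i, ⋂ (_ : i < n), {y | y i = false} := by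
      ext y; simp
    rw [this]
    refine MeasurableSet.iInter fun i => MeasurableSet.iInter fun _ => ?_
    exact (measurable_pi_apply (X := fun _ : ℕ => Bool) i) (measurableSet_singleton false)
  set F : (ℕ → Bool) → ℝ := Set.indicator {y | ∀ i < n, y i = false} fun _ => 1 with hF
  have h1 := nu_integral (F := F) (measurable_const.indicator hm) (C := 1) (by
    intro y
    rw [hF]
    by_cases hy : y ∈ {y : ℕ → Bool | ∀ i < n, y i = false}
    · rw [Set.indicator_of_mem hy]; norm_num
    · rw [Set.indicator_of_notMem hy]; norm_num)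
  have h2 : ∫ y, F y ∂nu = nu.real {y | ∀ i < n, y i = false} := by
    rw [hF, integral_indicator_const _ hm]
    simp
  rw [h2] at h1
  have h3 : (fun t => qq t * F (yy t)) = fun t => if n ≤ t then qq t else 0 := by
    funext t
    rw [hF]
    by_cases ht : n ≤ t
    · have hy : yy t ∈ {y : ℕ → Bool | ∀ i < n, y i = false} := by
        intro i hi
        simp only [yy, decide_eq_false_iff_not, not_le]
        omega
      rw [Set.indicator_of_mem hy, if_pos ht, mul_one]
    · have hy : yy t ∉ {y : ℕ → Bool | ∀ i < n, y i = false} := by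
        intro h
        have := h t (by omega)
        simp [yy] at this
      rw [Set.indicator_of_notMem hy, if_neg ht, mul_zero]
  rw [h3, ← hasSum_nat_add_iff' n] at h1
  have h4 : ∑ i ∈ Finset.range n, (if n ≤ i then qq i else 0) = 0 := by
    refine Finset.sum_eq_zero fun i hi => ?_
    rw [if_neg (by have := Finset.mem_range.1 hi; omega)]
  rw [h4, sub_zero] at h1
  have h5 : (fun t => if n ≤ t + n then qq (t + n) else 0) = fun t => qq (t + n) := by
    funext t
    rw [if_pos (Nat.le_add_left n t)]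
  rw [h5] at h1
  exact h1.unique (hasSum_qq n)

section process

variable {Ω S' : Type*} [MeasurableSpace Ω] [MeasurableSpace S'] {μ : Measure Ω}
  [IsProbabilityMeasure μ] {X : ℕ → Ω → S'} {P : Kernel S' S'} {φ : S' → Bool}

lemma meas_block (hX : ∀ n, Measurable (X n)) {B : ℕ → Set S'} (hB : ∀ i, MeasurableSet (B i))
    (n : ℕ) : MeasurableSet {ω | ∀ i ≤ n, X i ω ∈ B i} := by
  have : {ω | ∀ i ≤ n, X i ω ∈ B i} = ⋂ i, ⋂ (_ : i ≤ n), X i ⁻¹' B i := by
    ext ω; simp
  rw [this]
  exact MeasurableSet.iInter fun i => MeasurableSet.iInter fun _ => hX i (hB i)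

theorem flow_of_process [IsMarkovKernel P] (hφ : Measurable φ) (hX : IsMarkovProc μ X P)
    (hlaw : ∀ n : ℕ, μ.map (fun ω (i : Fin n) => φ (X i ω)) = nu.map (fun y (i : Fin n) => y i)) :
    ∃ m : ℕ → Measure S', Flow P (φ ⁻¹' {false}) m := by
  set Z := φ ⁻¹' {false} with hZdef
  have hZ : MeasurableSet Z := hφ (measurableSet_singleton false)
  have hG : ∀ n, MeasurableSet {ω | ∀ i ≤ n, X i ω ∈ Z} := fun n =>
    meas_block hX.meas (fun _ => hZ) n
  have hGmass : ∀ n, μ.real {ω | ∀ i ≤ n, X i ω ∈ Z} = cc (n + 1) := by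
    intro n
    rw [← nu_zero (n + 1), measureReal_def, measureReal_def]
    congr 1
    have h1 := hlaw (n + 1)
    have hs : MeasurableSet {z : Fin (n + 1) → Bool | ∀ i, z i = false} :=
      (Set.toFinite _).measurableSet
    have h2 : (μ.map fun ω (i : Fin (n + 1)) => φ (X i ω)) {z | ∀ i, z i = false} =
        (nu.map fun y (i : Fin (n + 1)) => y i) {z | ∀ i, z i = false} := by rw [h1]
    have m1 : Measurable fun ω (i : Fin (n + 1)) => φ (X i ω) :=
      measurable_pi_lambda _ fun i => hφ.comp (hX.meas i)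
    have m2 : Measurable fun (y : ℕ → Bool) (i : Fin (n + 1)) => y i :=
      measurable_pi_lambda _ fun i => measurable_pi_apply _
    rw [Measure.map_apply m1 hs, Measure.map_apply m2 hs] at h2
    have e1 : (fun ω (i : Fin (n + 1)) => φ (X i ω)) ⁻¹' {z | ∀ i, z i = false} =
        {ω | ∀ i ≤ n, X i ω ∈ Z} := by
      ext ω
      constructor
      · intro h i hi
        exact h ⟨i, by omega⟩
      · intro h i
        exact h i (by omega)
    have e2 : (fun (y : ℕ → Bool) (i : Fin (n + 1)) => y i) ⁻¹' {z | ∀ i, z i = false} =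
        {y | ∀ i < n + 1, y i = false} := by
      ext y
      constructor
      · intro h i hi
        exact h ⟨i, hi⟩
      · intro h i
        exact h i i.2
    rw [e1, e2] at h2
    exact h2
  refine ⟨fun n => (2 : ℝ≥0∞) ^ n • (μ.restrict {ω | ∀ i ≤ n, X i ω ∈ Z}).map (X n), ?_⟩
  refine ⟨fun n => ?_, ?_, fun n => ?_, fun n => ?_⟩
  · refine ⟨?_⟩
    rw [Measure.smul_apply, smul_eq_mul]
    exact ENNReal.mul_lt_top (by simp) (measure_lt_top _ _)
  · simp only [pow_zero, one_smul]
    rw [Measure.map_apply (hX.meas 0) hZ.compl, Measure.restrict_apply (hX.meas 0 hZ.compl)]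
    convert measure_empty (μ := μ)
    ext ω
    simp
  · refine Measure.ext fun B hB => ?_
    rw [KS_apply _ hB hZ, Measure.smul_apply, smul_eq_mul,
      Measure.map_apply (hX.meas (n + 1)) hB, Measure.restrict_apply (hX.meas (n + 1) hB),
      lintegral_smul_measure, lintegral_map (P.measurable_coe (hB.inter hZ)) (hX.meas n)]
    have h1 := hX.markov n (fun i => if i = n + 1 then B ∩ Z else Z) (fun i => by
      split_ifs
      · exact hB.inter hZ
      · exact hZ)
    have e1 : {ω | ∀ i ≤ n + 1, X i ω ∈ (if i = n + 1 then B ∩ Z else Z)} =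
        X (n + 1) ⁻¹' B ∩ {ω | ∀ i ≤ n + 1, X i ω ∈ Z} := by
      ext ω
      constructor
      · intro h
        refine ⟨?_, fun i hi => ?_⟩
        · have := h (n + 1) le_rfl
          rw [if_pos rfl] at this
          exact this.1
        · have := h i hi
          split_ifs at this
          · exact this.2
          · exact this
      · rintro ⟨h1, h2⟩ i hi
        split_ifs with hi'
        · subst hi'
          exact ⟨h1, h2 _ le_rfl⟩
        · exact h2 i hi
    have e2 : {ω | ∀ i ≤ n, X i ω ∈ (if i = n + 1 then B ∩ Z else Z)} =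
        {ω | ∀ i ≤ n, X i ω ∈ Z} := by
      ext ω
      constructor
      · intro h i hi
        have := h i hi
        rwa [if_neg (by omega)] at this
      · intro h i hi
        rw [if_neg (by omega)]
        exact h i hi
    rw [e1, e2, if_pos rfl] at h1
    rw [h1, pow_succ, smul_eq_mul]
    ring
  · have hr : ((2 : ℝ≥0∞) ^ n • (μ.restrict {ω | ∀ i ≤ n, X i ω ∈ Z}).map (X n)).real Set.univ =
        2 ^ n * μ.real {ω | ∀ i ≤ n, X i ω ∈ Z} := by
      rw [measureReal_def, Measure.smul_apply, smul_eq_mul, ENNReal.toReal_mul,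
        Measure.map_apply (hX.meas n) MeasurableSet.univ, Set.preimage_univ,
        Measure.restrict_apply_univ]
      simp [measureReal_def]
    rw [hr, hGmass, cc]
    have : (2 : ℝ) ^ n * ((1 / 2) ^ (n + 1)) = 1 / 2 := by
      rw [pow_succ, ← mul_assoc, ← mul_pow]
      norm_num
    push_cast
    linear_combination ((3 + Real.cos (n + 1)) / 4) * this

end process

/-- The process is not a function of a Markov process of finite rank. -/
theorem not_repr {Ω S' : Type*} [MeasurableSpace Ω] [MeasurableSpace S'] {μ : Measure Ω}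
    [IsProbabilityMeasure μ] {X : ℕ → Ω → S'} {P : Kernel S' S'} [IsMarkovKernel P]
    {φ : S' → Bool} (hφ : Measurable φ) (hX : IsMarkovProc μ X P) (hP : IsFiniteRank P)
    (hlaw : ∀ n : ℕ, μ.map (fun ω (i : Fin n) => φ (X i ω)) = nu.map (fun y (i : Fin n) => y i)) :
    False := by
  obtain ⟨m, hm⟩ := flow_of_process hφ hX hlaw
  refine no_flow hm ?_ (hφ (measurableSet_singleton false))
  obtain ⟨r, a, b, -, hab⟩ := hP
  exact ⟨r, a, fun j B => b j B, hab⟩

end Pool.Agent.Q211.Heller
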